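import Mathlib

set_option autoImplicit false

namespace Q33.Dif

open scoped ContDiff Topology
open Filter Set

/-- The group of order preserving smooth diffeomorphisms of the real line. -/
def DiffeoPlus : Subgroup (Equiv.Perm ℝ) where
  carrier := {f | ContDiff ℝ ∞ f ∧ ContDiff ℝ ∞ f.symm ∧ StrictMono f}
  mul_mem' := by
    rintro f g ⟨h1, h2, h3⟩ ⟨k1, k2, k3⟩
    refine ⟨h1.comp k1, k2.comp h2, h3.comp k3⟩
  one_mem' := ⟨contDiff_id, contDiff_id, strictMono_id⟩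
  inv_mem' := by
    rintro f ⟨h1, h2, h3⟩
    refine ⟨h2, h1, ?_⟩
    intro x y hxy
    by_contra hcon
    have h4 : f.symm y ≤ f.symm x := not_lt.1 hcon
    have h5 := h3.monotone h4
    simp only [Equiv.apply_symm_apply] at h5
    exact absurd hxy (not_lt.2 h5)

/-- reversible elements -/
def Rev (g : DiffeoPlus) : Prop := ∃ h : DiffeoPlus, h * g * h⁻¹ = g⁻¹

instance : CoeFun DiffeoPlus (fun _ => ℝ → ℝ) := ⟨fun f => f.1⟩

theorem mul_ap (f g : DiffeoPlus) (x : ℝ) : (f * g) x = f (g x) := rfl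
theorem one_ap (x : ℝ) : (1 : DiffeoPlus) x = x := rfl
@[simp] theorem inv_ap (f : DiffeoPlus) (x : ℝ) : f⁻¹ (f x) = x := f.1.symm_apply_apply x
@[simp] theorem ap_inv (f : DiffeoPlus) (x : ℝ) : f (f⁻¹ x) = x := f.1.apply_symm_apply x

theorem ext {f g : DiffeoPlus} (h : ∀ x, f x = g x) : f = g :=
  Subtype.ext (Equiv.ext h)

theorem mono (f : DiffeoPlus) : StrictMono f := f.2.2.2
theorem cd (f : DiffeoPlus) : ContDiff ℝ ∞ f := f.2.1
theorem cont (f : DiffeoPlus) : Continuous f := f.2.1.continuous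

theorem lt_iff (f : DiffeoPlus) {x y : ℝ} : f x < f y ↔ x < y := (mono f).lt_iff_lt
theorem le_iff (f : DiffeoPlus) {x y : ℝ} : f x ≤ f y ↔ x ≤ y := (mono f).le_iff_le
theorem inj (f : DiffeoPlus) {x y : ℝ} : f x = f y ↔ x = y := (mono f).injective.eq_iff

theorem lt_inv_iff (f : DiffeoPlus) {x y : ℝ} : x < f⁻¹ y ↔ f x < y := by
  rw [← lt_iff f, ap_inv]
theorem inv_lt_iff (f : DiffeoPlus) {x y : ℝ} : f⁻¹ x < y ↔ x < f y := by
  rw [← lt_iff f, ap_inv]
theorem le_inv_iff (f : DiffeoPlus) {x y : ℝ} : x ≤ f⁻¹ y ↔ f x ≤ y := by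
  rw [← le_iff f, ap_inv]
theorem inv_le_iff (f : DiffeoPlus) {x y : ℝ} : f⁻¹ x ≤ y ↔ x ≤ f y := by
  rw [← le_iff f, ap_inv]
theorem inv_eq_iff (f : DiffeoPlus) {x y : ℝ} : f⁻¹ x = y ↔ x = f y := by
  constructor
  · rintro rfl; simp
  · rintro rfl; simp

theorem diffble (f : DiffeoPlus) : Differentiable ℝ f :=
  (cd f).differentiable (by simp)

theorem dpos (f : DiffeoPlus) (x : ℝ) : 0 < deriv f x := by
  have h1 : HasDerivAt f (deriv f x) x := (diffble f x).hasDerivAt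
  have h2 : HasDerivAt (f⁻¹ : DiffeoPlus) (deriv (f⁻¹ : DiffeoPlus) (f x)) (f x) :=
    (diffble f⁻¹ (f x)).hasDerivAt
  have h3 := h2.comp x h1
  have h4 : ((f⁻¹ : DiffeoPlus) : ℝ → ℝ) ∘ (f : ℝ → ℝ) = id := by
    funext y; simp
  rw [h4] at h3
  have h5 := h3.unique (hasDerivAt_id x)
  have h6 : 0 ≤ deriv f x := (mono f).monotone.deriv_nonneg
  rcases h6.lt_or_eq with h7 | h7
  · exact h7
  · rw [← h7] at h5; simp at h5

/-- constructor -/
theorem mk0 (F : ℝ → ℝ) (h : ContDiff ℝ ∞ F) (hd : ∀ x, 0 < deriv F x)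
    (hup : ∀ M, ∃ x, M ≤ F x) (hdn : ∀ M, ∃ x, F x ≤ M) :
    ∃ f : DiffeoPlus, ∀ x, f x = F x := by
  have hm : StrictMono F := strictMono_of_deriv_pos hd
  have hsur : Function.Surjective F := by
    intro y
    obtain ⟨a, ha⟩ := hdn y
    obtain ⟨b, hb⟩ := hup y
    have hab : F a ≤ F b := ha.trans hb
    have hab' : a ≤ b := hm.le_iff_le.1 hab
    obtain ⟨c, _, hc⟩ := intermediate_value_Icc hab' h.continuous.continuousOn ⟨ha, hb⟩
    exact ⟨c, hc⟩
  let e : ℝ ≃o ℝ := StrictMono.orderIsoOfSurjective F hm hsur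
  let E : ℝ ≃ₜ ℝ := e.toHomeomorph
  have hE : ∀ x, E x = F x := fun x => rfl
  have hinv : ContDiff ℝ ∞ E.symm := by
    refine Homeomorph.contDiff_symm_deriv (f := E) (f' := deriv F) (fun x => (hd x).ne') ?_ h
    intro x
    exact (h.differentiable (by simp) x).hasDerivAt
  exact ⟨⟨E.toEquiv, h, hinv, hm⟩, fun x => rfl⟩

theorem mk1 (F : ℝ → ℝ) (h : ∀ x, ∃ g : DiffeoPlus, F =ᶠ[𝓝 x] g)
    (hup : ∀ M, ∃ x, M ≤ F x) (hdn : ∀ M, ∃ x, F x ≤ M) :
    ∃ f : DiffeoPlus, ∀ x, f x = F x := by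
  refine mk0 F ?_ ?_ hup hdn
  · rw [contDiff_iff_contDiffAt]
    intro x
    obtain ⟨g, hg⟩ := h x
    exact ((cd g).contDiffAt).congr_of_eventuallyEq hg
  · intro x
    obtain ⟨g, hg⟩ := h x
    rw [hg.deriv_eq]
    exact dpos g x

/-- glueing of two diffeomorphisms which agree on an interval -/
theorem glue (α β : DiffeoPlus) (a b : ℝ) (hab : a < b) (h : ∀ x ∈ Icc a b, α x = β x) :
    ∃ γ : DiffeoPlus, (∀ x ≤ b, γ x = α x) ∧ (∀ x, a ≤ x → γ x = β x) := by
  classical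
  let F : ℝ → ℝ := fun x => if x ≤ b then α x else β x
  have h1 : ∀ x ≤ b, F x = α x := fun x hx => if_pos hx
  have h2 : ∀ x, a ≤ x → F x = β x := by
    intro x hx
    by_cases hb : x ≤ b
    · rw [h1 x hb]; exact h x ⟨hx, hb⟩
    · exact if_neg hb
  have hex : ∃ f : DiffeoPlus, ∀ x, f x = F x := by
    refine mk1 F ?_ ?_ ?_
    · intro x
      rcases lt_or_ge x b with hx | hx
      · refine ⟨α, ?_⟩
        filter_upwards [Iio_mem_nhds hx] with y hy
        exact h1 y (le_of_lt hy)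
      · refine ⟨β, ?_⟩
        filter_upwards [Ioi_mem_nhds (lt_of_lt_of_le hab hx)] with y hy
        exact h2 y (le_of_lt hy)
    · intro M
      refine ⟨max a (β⁻¹ M), ?_⟩
      rw [h2 _ (le_max_left _ _)]
      have := (le_iff β).2 (le_max_right a (β⁻¹ M))
      simpa using this
    · intro M
      refine ⟨min b (α⁻¹ M), ?_⟩
      rw [h1 _ (min_le_left _ _)]
      have := (le_iff α).2 (min_le_right b (α⁻¹ M))
      simpa using this
  obtain ⟨f, hf⟩ := hex
  exact ⟨f, fun x hx => by rw [hf, h1 x hx], fun x hx => by rw [hf, h2 x hx]⟩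

/-- affine maps -/
theorem aff (a b : ℝ) (ha : 0 < a) : ∃ f : DiffeoPlus, ∀ x, f x = a * x + b := by
  refine mk0 (fun x => a * x + b) (by fun_prop) ?_ ?_ ?_
  · intro x
    have : HasDerivAt (fun x : ℝ => a * x + b) a x := by
      simpa using ((hasDerivAt_id x).const_mul a).add_const b
    rw [this.deriv]; exact ha
  · intro M
    refine ⟨(M - b) / a, ?_⟩
    have : a * ((M - b) / a) = M - b := by field_simp
    simp only [this]; linarith
  · intro M
    refine ⟨(M - b) / a, ?_⟩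
    have : a * ((M - b) / a) = M - b := by field_simp
    simp only [this]; linarith

/-- the affine map -/
noncomputable def Aff (a b : ℝ) (ha : 0 < a) : DiffeoPlus := (aff a b ha).choose
theorem Aff_ap (a b : ℝ) (ha : 0 < a) (x : ℝ) : Aff a b ha x = a * x + b :=
  (aff a b ha).choose_spec x

/-- translation -/
noncomputable def Tr (c : ℝ) : DiffeoPlus := Aff 1 c one_pos
theorem Tr_ap (c x : ℝ) : Tr c x = x + c := by rw [Tr, Aff_ap]; ring
theorem Tr_inv (c : ℝ) : (Tr c)⁻¹ = Tr (-c) := by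
  apply ext; intro x
  rw [inv_eq_iff, Tr_ap, Tr_ap]; ring
theorem Tr_inv_ap (c x : ℝ) : (Tr c)⁻¹ x = x - c := by
  rw [Tr_inv, Tr_ap]; ring

end Q33.Dif
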