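import Pool.Agent.Q33.Dif.End

set_option autoImplicit false

namespace Q33.Dif

open scoped ContDiff Topology
open Filter Set

theorem iter_unb (κ : DiffeoPlus) (b : ℝ) (h : ∀ x, b ≤ x → x < κ x) (M : ℝ) :
    ∃ n : ℕ, M ≤ (κ ^ n) b := by
  by_contra hcon
  push Not at hcon
  set s : Set ℝ := range fun n : ℕ => (κ ^ n) b with hs
  have hbdd : BddAbove s := ⟨M, by rintro _ ⟨n, rfl⟩; exact (hcon n).le⟩
  have hne : s.Nonempty := ⟨_, 0, rfl⟩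
  have hb : b ≤ sSup s := le_csSup hbdd ⟨0, by simp⟩
  have h1 : κ⁻¹ (sSup s) < sSup s := (inv_lt_iff κ).2 (h _ hb)
  obtain ⟨_, ⟨n, rfl⟩, hn⟩ := exists_lt_of_lt_csSup hne h1
  have h2 : sSup s < κ ((κ ^ n) b) := (inv_lt_iff κ).1 hn
  have h3 : κ ((κ ^ n) b) ≤ sSup s := by
    refine le_csSup hbdd ⟨n + 1, ?_⟩
    show (κ ^ (n + 1)) b = _
    rw [pow_succ', mul_ap]
  exact absurd h3 (not_le.2 h2)

theorem conjR' {κ κ' : DiffeoPlus} {b : ℝ} (he : ∀ x ≤ b, κ x = κ' x)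
    (h : ∀ x, b ≤ x → x < κ x) (h' : ∀ x, b ≤ x → x < κ' x) :
    ∃ ψ : DiffeoPlus, κ' = ψ * κ * ψ⁻¹ := by
  have hge : ∀ n : ℕ, b ≤ (κ ^ n) b := by
    intro n
    induction n with
    | zero => simp
    | succ n ih => rw [pow_succ', mul_ap]; exact ih.trans (h _ ih).le
  obtain ⟨Ψ, hΨ⟩ := lim (fun n => κ' ^ n * (κ ^ n)⁻¹) (fun n => (κ ^ (n + 1)) b)
    (by
      refine monotone_nat_of_le_succ ?_
      intro n
      rw [pow_succ' κ (n + 1), mul_ap]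
      exact (h _ (hge _)).le)
    (by
      intro M
      obtain ⟨n, hn⟩ := iter_unb κ b h M
      refine ⟨n, hn.trans ?_⟩
      show (κ ^ n) b ≤ (κ ^ (n + 1)) b
      rw [pow_succ', mul_ap]
      exact (h _ (hge _)).le)
    (by
      intro n x hx
      have hz : (κ ^ n)⁻¹ x ≤ κ b := by
        rw [inv_le_iff, ← mul_ap, ← pow_succ]; exact hx
      show (κ' ^ (n + 1) * (κ ^ (n + 1))⁻¹) x = (κ' ^ n * (κ ^ n)⁻¹) x
      rw [pow_succ, pow_succ, mul_inv_rev, mul_ap, mul_ap, mul_ap, mul_ap,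
        ← he _ ((inv_le_iff κ).2 hz), ap_inv])
    (by
      intro M
      obtain ⟨n, hn⟩ := iter_unb κ' b h' M
      refine ⟨n, hn.trans ?_⟩
      show (κ' ^ n) b ≤ (κ' ^ n * (κ ^ n)⁻¹) ((κ ^ (n + 1)) b)
      rw [pow_succ, mul_ap, mul_ap, inv_ap, le_iff]
      exact (h b le_rfl).le)
  refine ⟨Ψ, ?_⟩
  rw [eq_mul_inv_iff_mul_eq]
  apply ext; intro x
  obtain ⟨n, hn⟩ := iter_unb κ b h x
  have h1 : x ≤ (κ ^ (n + 1)) b := by
    rw [pow_succ', mul_ap]; exact hn.trans (h _ (hge _)).le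
  have h2 : Ψ x = (κ' ^ n * (κ ^ n)⁻¹) x := hΨ n x h1
  have h3 : Ψ (κ x) = (κ' ^ (n + 1) * (κ ^ (n + 1))⁻¹) (κ x) := by
    refine hΨ (n + 1) (κ x) ?_
    show κ x ≤ (κ ^ (n + 1 + 1)) b
    rw [pow_succ', mul_ap, le_iff]; exact h1
  rw [mul_ap, mul_ap, h2, h3, pow_succ' κ' n, pow_succ' κ n, mul_inv_rev]
  simp only [mul_ap, inv_ap]

theorem conjR {σ : Bool} {κ κ' : DiffeoPlus} {b : ℝ} (he : ∀ x ≤ b, κ x = κ' x)
    (h : ∀ x, b ≤ x → S σ x (κ x)) (h' : ∀ x, b ≤ x → S σ x (κ' x)) :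
    ∃ ψ : DiffeoPlus, κ' = ψ * κ * ψ⁻¹ := by
  cases σ with
  | true => exact conjR' he h h'
  | false =>
    have hb : κ b = κ' b := he b le_rfl
    obtain ⟨ψ, hψ⟩ := conjR' (κ := κ⁻¹) (κ' := κ'⁻¹) (b := κ b)
      (by
        intro x hx
        have hy : κ⁻¹ x ≤ b := (inv_le_iff κ).2 hx
        rw [eq_comm, inv_eq_iff, ← he _ hy, ap_inv])
      (by
        intro x hx
        have hy : b ≤ κ⁻¹ x := (le_inv_iff κ).2 hx
        have h1 : κ (κ⁻¹ x) < κ⁻¹ x := h _ hy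
        rwa [ap_inv] at h1)
      (by
        intro x hx
        rw [hb] at hx
        have hy : b ≤ κ'⁻¹ x := (le_inv_iff κ').2 hx
        have h1 : κ' (κ'⁻¹ x) < κ'⁻¹ x := h' _ hy
        rwa [ap_inv] at h1)
    refine ⟨ψ, ?_⟩
    have : κ' = (κ'⁻¹)⁻¹ := by group
    rw [this, hψ]; group

theorem conjL {σ : Bool} {κ κ' : DiffeoPlus} {a : ℝ} (he : ∀ x, a ≤ x → κ x = κ' x)
    (h : ∀ x, x ≤ a → S σ x (κ x)) (h' : ∀ x, x ≤ a → S σ x (κ' x)) :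
    ∃ ψ : DiffeoPlus, κ' = ψ * κ * ψ⁻¹ := by
  obtain ⟨ψ, hψ⟩ := conjR (σ := !σ) (κ := J κ) (κ' := J κ') (b := -a)
    (by
      intro x hx
      rw [J_ap, J_ap, he (-x) (by linarith)])
    (by
      intro x hx
      have h1 := h (-x) (by linarith)
      rw [J_ap, ← S_neg, neg_neg, Bool.not_not]; 
      simpa using h1)
    (by
      intro x hx
      have h1 := h' (-x) (by linarith)
      rw [J_ap, ← S_neg, neg_neg, Bool.not_not]; 
      simpa using h1)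
  refine ⟨J ψ, ?_⟩
  have := congrArg J hψ
  rw [J_mul, J_mul, J_J, J_J, J_inv] at this
  exact this

theorem conjMid {σ σ' : Bool} {κ κ' : DiffeoPlus} {a b : ℝ} (hab : a < b)
    (he : ∀ x ∈ Icc a b, κ x = κ' x)
    (h : ∀ x, b ≤ x → S σ x (κ x)) (h' : ∀ x, b ≤ x → S σ x (κ' x))
    (k : ∀ x, x ≤ a → S σ' x (κ x)) (k' : ∀ x, x ≤ a → S σ' x (κ' x)) :
    ∃ ψ : DiffeoPlus, κ' = ψ * κ * ψ⁻¹ := by
  obtain ⟨γ, g1, g2⟩ := glue κ κ' a b hab he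
  obtain ⟨ψ1, h1⟩ := conjR (σ := σ) (κ := κ) (κ' := γ) (b := b)
    (fun x hx => (g1 x hx).symm) h (fun x hx => by rw [g2 x (by linarith)]; exact h' x hx)
  obtain ⟨ψ2, h2⟩ := conjL (σ := σ') (κ := γ) (κ' := κ') (a := a)
    (fun x hx => g2 x hx) (fun x hx => by rw [g1 x (by linarith)]; exact k x hx) k'
  exact ⟨ψ2 * ψ1, by rw [h2, h1]; group⟩

end Q33.Dif
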