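import Pool.Agent.Q33.Dif.Main

set_option autoImplicit false

namespace Q33.Dif

open scoped ContDiff Topology
open Filter Set

theorem eta (d : ℤ → ℤ) (hd : Monotone d) :
    ∃ η : DiffeoPlus, ∀ m : ℤ, ∀ x : ℝ, (m : ℝ) ≤ x → x ≤ m + 7 / 8 → η x = x + d m := by
  have hG : ∀ k : ℤ, ∃ G : DiffeoPlus, (∀ x ≤ (k : ℝ) + 7 / 8, G x = x + d k) ∧
      ∀ x, (k : ℝ) + 1 ≤ x → G x = x + d (k + 1) := by
    intro k
    have h1 : (d k : ℝ) ≤ d (k + 1) := by exact_mod_cast hd (by omega)
    obtain ⟨G, g1, g2⟩ := interp (Tr (d k)) (Tr (d (k + 1))) (s := (k : ℝ) + 7 / 8)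
      (t := k + 1) (by linarith) (by rw [Tr_ap, Tr_ap]; linarith)
    exact ⟨G, fun x hx => by rw [g1 x hx, Tr_ap], fun x hx => by rw [g2 x hx, Tr_ap]⟩
  choose G hG1 hG2 using hG
  let F : ℝ → ℝ := fun x => G ⌊x⌋ x
  have hF : ∀ k : ℤ, ∀ x : ℝ, (k : ℝ) ≤ x → x ≤ k + 1 → F x = G k x := by
    intro k x h1 h2
    rcases h2.lt_or_eq with h3 | h3
    · have : ⌊x⌋ = k := by rw [Int.floor_eq_iff]; exact ⟨h1, h3⟩
      show G ⌊x⌋ x = _
      rw [this]
    · have : ⌊x⌋ = k + 1 := by
        rw [Int.floor_eq_iff, h3]; push_cast; constructor <;> linarith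
      show G ⌊x⌋ x = _
      rw [this, hG2 k x h3.ge, hG1 (k + 1) x (by push_cast; linarith)]
  have hFk : ∀ k : ℤ, F k = k + d k := by
    intro k
    rw [hF k k le_rfl (by linarith), hG1 k k (by linarith)]
  obtain ⟨η, hη⟩ : ∃ η : DiffeoPlus, ∀ x, η x = F x := by
    refine mk1 F ?_ ?_ ?_
    · intro x
      have hk1 := Int.floor_le x
      have hk2 := Int.lt_floor_add_one x
      set k := ⌊x⌋ with hk
      rcases hk1.lt_or_eq with h1 | h1
      · refine ⟨G k, ?_⟩
        filter_upwards [Ioo_mem_nhds h1 hk2] with z hz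
        exact hF k z hz.1.le hz.2.le
      · refine ⟨G (k - 1), ?_⟩
        filter_upwards [Ioo_mem_nhds (show (k : ℝ) - 1 < x by linarith)
          (show x < (k : ℝ) + 7 / 8 by linarith)] with z hz
        rcases le_total z k with h3 | h3
        · exact hF (k - 1) z (by push_cast; linarith [hz.1]) (by push_cast; linarith)
        · rw [hF k z h3 (by linarith [hz.2]), hG1 k z hz.2.le,
            hG2 (k - 1) z (by push_cast; linarith)]
          simp
    · intro M
      set k : ℤ := max 0 ⌈M - d 0⌉ with hk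
      have h1 : (d 0 : ℝ) ≤ d k := by exact_mod_cast hd (le_max_left _ _)
      have h2 : M - d 0 ≤ (k : ℝ) := (Int.le_ceil _).trans (by exact_mod_cast le_max_right _ _)
      exact ⟨k, by rw [hFk]; linarith⟩
    · intro M
      set k : ℤ := min 0 ⌊M - d 0⌋ with hk
      have h1 : (d k : ℝ) ≤ d 0 := by exact_mod_cast hd (min_le_left _ _)
      have h2 : (k : ℝ) ≤ M - d 0 := le_trans (by exact_mod_cast min_le_right _ _) (Int.floor_le _)
      exact ⟨k, by rw [hFk]; linarith⟩
  refine ⟨η, fun m x h1 h2 => ?_⟩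
  rw [hη, hF m x h1 (by linarith), hG1 m x h2]

/-- support in `[1/8,7/8]` -/
def Sup8 (φ : DiffeoPlus) : Prop := ∀ x : ℝ, x ≤ 1 / 8 ∨ 7 / 8 ≤ x → φ x = x

theorem Sup8.sup {φ : DiffeoPlus} (h : Sup8 φ) : Sup φ := by
  rintro x (hx | hx)
  · exact h x (Or.inl (by linarith))
  · exact h x (Or.inr (by linarith))

theorem pos_pat {φ A : DiffeoPlus} (hφ : Sup8 φ) (nn : ℤ → ℤ) (hn : StrictMono nn)
    (hA : Pat φ A alt) (e : ℤ → ℤ) (he1 : ∀ m, e (nn m) = alt m)
    (he2 : ∀ m k, nn m < k → k < nn (m + 1) → e k = 0) :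
    ∃ c : DiffeoPlus, Pat φ (c * A * c⁻¹) e := by
  have hd : Monotone fun m => nn m - m := by
    refine monotone_int_of_le_succ ?_
    intro m
    have := hn (show m < m + 1 by omega)
    show nn m - m ≤ nn (m + 1) - (m + 1)
    omega
  obtain ⟨η, hη⟩ := eta _ hd
  refine ⟨η, ?_⟩
  intro k x hx1 hx2
  set y := η⁻¹ x with hy
  have hyx : η y = x := by rw [hy, ap_inv]
  set m := ⌊y⌋ with hm
  have hm1 : (m : ℝ) ≤ y := Int.floor_le y
  have hm2 : y < m + 1 := Int.lt_floor_add_one y
  have hnm : ∀ j : ℤ, η (j : ℝ) = nn j := by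
    intro j
    rw [hη j j le_rfl (by linarith)]; push_cast; ring
  have hx3 : (nn m : ℝ) ≤ x := by
    rw [← hnm, ← hyx]; exact (le_iff η).2 hm1
  have hx4 : x < nn (m + 1) := by
    rw [← hnm, ← hyx]; refine (lt_iff η).2 ?_
    push_cast; exact hm2
  have hkn : k < nn (m + 1) := by
    have : (k : ℝ) < nn (m + 1) := lt_of_le_of_lt hx1 hx4
    exact_mod_cast this
  have hA' : A y = (φ ^ (alt m)) (y - m) + m := hA m y hm1 hm2.le
  rw [mul_ap, mul_ap, ← hy]
  rcases le_or_gt y (m + 7 / 8) with h1 | h1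
  · have h2 : x = y + (nn m - m) := by
      rw [← hyx, hη m y hm1 h1]; push_cast; ring
    have h3 : 0 ≤ (φ ^ (alt m)) (y - m) := (hφ.sup.zpow _).nonneg (by linarith)
    have h4 : (φ ^ (alt m)) (y - m) ≤ 7 / 8 := by
      have := (le_iff (φ ^ (alt m))).2 (show y - m ≤ 7 / 8 by linarith)
      rwa [zpow_fix φ (hφ _ (Or.inr le_rfl))] at this
    rw [hA', hη m _ (by linarith) (by linarith)]
    have h5 : nn m ≤ k ∨ k + 1 = nn m := by
      by_contra hcon
      push Not at hcon
      have h6 : k + 2 ≤ nn m := by omega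
      have h7 : (k : ℝ) + 2 ≤ nn m := by exact_mod_cast h6
      linarith
    have h6 : k ≤ nn m := by
      have : (k : ℝ) < nn m + 1 := by linarith
      have : k < nn m + 1 := by exact_mod_cast this
      omega
    rcases h5 with h5 | h5
    · have h7 : k = nn m := le_antisymm h6 h5
      rw [h7, he1]
      have : x - (nn m : ℝ) = y - m := by rw [h2]; ring
      rw [this]; push_cast; ring
    · have h7 : (k : ℝ) + 1 = nn m := by exact_mod_cast h5
      have h8 : x = k + 1 := le_antisymm hx2 (by linarith)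
      have h9 : y - m = 0 := by linarith
      have h10 : x - k = 1 := by linarith
      rw [h9, h10, (hφ.sup.zpow _).zero, (hφ.sup.zpow _).one]
      push_cast; linarith
  · have h2 : (φ ^ (alt m)) (y - m) = y - m := zpow_fix φ (hφ _ (Or.inr (by linarith))) _
    have h3 : A y = y := by rw [hA', h2]; ring
    rw [h3, hyx]
    have h4 : (nn m : ℝ) + 7 / 8 < x := by
      have h5 := hη m ((m : ℝ) + 7 / 8) (by linarith) le_rfl
      have h6 : η ((m : ℝ) + 7 / 8) < η y := (lt_iff η).2 h1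
      rw [h5, hyx] at h6
      push_cast at h6; linarith
    have h5 : nn m ≤ k := by
      have : (nn m : ℝ) < k + 1 := by linarith
      have : nn m < k + 1 := by exact_mod_cast this
      omega
    rcases h5.lt_or_eq with h6 | h6
    · rw [he2 m k h6 hkn, zpow_zero, one_ap]; ring
    · have h7 : (nn m : ℝ) = k := by exact_mod_cast h6
      rw [zpow_fix φ (hφ (x - k) (Or.inr (by linarith)))]; ring

/-- positions -/
def pos (m : ℤ) : ℤ :=
  if m % 2 = 0 then 3 * (m / 2) else if 0 ≤ m then 3 * (m / 2) + 2 else 3 * (m / 2) + 1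

/-- exponents -/
def expo (k : ℤ) : ℤ :=
  if k % 3 = 0 then 1 else if 0 ≤ k then (if k % 3 = 2 then -1 else 0)
    else (if k % 3 = 1 then -1 else 0)

theorem pos_strictMono : StrictMono pos := by
  refine strictMono_int_of_lt_succ ?_
  intro m
  unfold pos
  split_ifs <;> omega

theorem expo_pos (m : ℤ) : expo (pos m) = alt m := by
  have h : alt m = if m % 2 = 0 then 1 else -1 := by
    unfold alt; simp only [Int.even_iff]
  rw [h]
  unfold expo pos
  split_ifs <;> omega

theorem expo_gap (m k : ℤ) (h1 : pos m < k) (h2 : k < pos (m + 1)) : expo k = 0 := by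
  unfold expo
  unfold pos at h1 h2
  split_ifs at h1 h2 ⊢ <;> omega

theorem expo_sum (k : ℤ) : expo (k - 1) + expo k + expo (k - (-1)) = if k = 0 then 1 else 0 := by
  unfold expo
  split_ifs <;> omega

theorem main_c8 {φ : DiffeoPlus} (hφ : Sup8 φ) : R3 φ := by
  obtain ⟨A, hA⟩ := Pat.exists hφ.sup alt
  have hA1 : Rev A := alt_rev hφ.sup hA
  obtain ⟨c, hc⟩ := pos_pat hφ pos pos_strictMono hA expo expo_pos expo_gap
  set X := c * A * c⁻¹ with hX
  have hX1 : Rev X := hA1.conj c
  have h1 := hc.tr 1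
  have h2 := hc.tr (-1)
  have h3 := (h1.mul hφ.sup hc).mul hφ.sup h2
  have h4 : Pat φ φ (fun k => if k = 0 then 1 else 0) := by
    intro k x hx1 hx2
    by_cases hk : k = 0
    · subst hk
      simp
    · show φ x = (φ ^ (if k = 0 then (1 : ℤ) else 0)) (x - k) + k
      rw [if_neg hk, zpow_zero, one_ap]
      rw [hφ.sup x]
      · ring
      · rcases lt_or_gt_of_ne hk with h | h
        · left
          have : (k : ℝ) + 1 ≤ 0 := by exact_mod_cast h
          linarith
        · right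
          have : (1 : ℝ) ≤ k := by exact_mod_cast h
          linarith
  have h5 := h4.ext h3 (fun k => (expo_sum k).symm)
  exact ⟨_, _, _, hX1.conj _, hX1, hX1.conj _, h5⟩

theorem main_c {f : DiffeoPlus} {M : ℝ} (h1 : ∀ x, M ≤ x → f x = x) (h2 : ∀ x, x ≤ -M → f x = x) :
    R3 f := by
  set N := max M 1 with hN
  have hN0 : 0 < N := lt_of_lt_of_le one_pos (le_max_right _ _)
  have hMN : M ≤ N := le_max_left _ _
  set c := Aff (8 * N / 3) (-(4 * N / 3)) (by positivity) with hc
  have hcap : ∀ x, c x = 8 * N / 3 * x + -(4 * N / 3) := fun x => Aff_ap _ _ _ x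
  refine R3.of_conj c⁻¹ (main_c8 ?_)
  intro x hx
  rw [inv_inv, mul_ap, mul_ap, inv_eq_iff]
  rcases hx with hx | hx
  · apply h2
    rw [hcap]
    nlinarith
  · apply h1
    rw [hcap]
    nlinarith

theorem main_z' {σ : Bool} {f : DiffeoPlus} {M : ℝ} (hid : ∀ x, M ≤ x → f x = x)
    (hL : EndL σ f) : R3 f := by
  cases σ with
  | true => exact main_z hid hL
  | false =>
    have hM' : ∀ x, M ≤ x → f⁻¹ x = x := by
      intro x hx; rw [inv_eq_iff, hid x hx]
    have := (main_z hM' hL.inv).inv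
    rwa [inv_inv] at this

theorem endL_or {f : DiffeoPlus} (h : ¬ ∃ M, ∀ x, x ≤ M → f x = x) : ∃ σ, EndL σ f := by
  by_contra hcon
  push Not at hcon
  have h1 := hcon true
  have h2 := hcon false
  unfold EndL S at h1 h2
  push Not at h1 h2
  obtain ⟨a, ha⟩ := h1
  obtain ⟨b, hb⟩ := h2
  refine h ⟨min a b - 1, fun x hx => ?_⟩
  have h3 := min_le_left a b
  have h4 := min_le_right a b
  exact le_antisymm (ha x (by linarith)) (hb x (by linarith))

theorem endR_or {f : DiffeoPlus} (h : ¬ ∃ M, ∀ x, M ≤ x → f x = x) : ∃ σ, EndR σ f := by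
  have h1 : ¬ ∃ M, ∀ x, x ≤ M → J f x = x := by
    rintro ⟨M, hM⟩
    refine h ⟨-M, fun x hx => ?_⟩
    have := hM (-x) (by linarith)
    rw [J_ap, neg_neg] at this
    linarith
  obtain ⟨σ, hσ⟩ := endL_or h1
  have := hσ.J
  rw [J_J] at this
  exact ⟨_, this⟩

theorem three (f : DiffeoPlus) : R3 f := by
  by_cases hr : ∃ M, ∀ x, M ≤ x → f x = x
  · obtain ⟨M, hM⟩ := hr
    by_cases hl : ∃ M, ∀ x, x ≤ M → f x = x
    · obtain ⟨M', hM'⟩ := hl
      refine main_c (M := max M (-M')) (fun x hx => hM x ((le_max_left _ _).trans hx))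
        (fun x hx => hM' x ?_)
      have := le_max_right M (-M')
      linarith
    · obtain ⟨σ, hσ⟩ := endL_or hl
      exact main_z' hM hσ
  · obtain ⟨σ, hσ⟩ := endR_or hr
    by_cases hl : ∃ M, ∀ x, x ≤ M → f x = x
    · obtain ⟨M, hM⟩ := hl
      have h1 : R3 (J f) := by
        refine main_z' (M := -M) ?_ hσ.J
        intro x hx
        rw [J_ap, hM (-x) (by linarith), neg_neg]
      have := h1.J
      rwa [J_J] at this
    · obtain ⟨σ', hσ'⟩ := endL_or hl
      obtain ⟨x0, _, hx0⟩ := hσ 0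
      have hne : f x0 ≠ x0 := by
        intro he
        cases σ <;> simp [S, he] at hx0
      rcases lt_or_gt_of_ne hne with h1 | h1
      · have h2 : f x0 < f⁻¹ (f x0) := by rw [inv_ap]; exact h1
        have := (main_nz hσ.inv hσ'.inv h2).inv
        rwa [inv_inv] at this
      · exact main_nz hσ hσ' h1

end Q33.Dif
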