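import Pool.Agent.Q33.Dif.Pat

set_option autoImplicit false

namespace Q33.Dif

open scoped ContDiff Topology
open Filter Set

/-- signed comparison -/
def S : Bool → ℝ → ℝ → Prop
  | true, a, b => a < b
  | false, a, b => b < a

theorem S_neg (σ : Bool) (a b : ℝ) : S (!σ) (-a) (-b) ↔ S σ a b := by
  cases σ <;> simp [S]

/-- there are points arbitrarily far to the right which are moved in the direction `σ` -/
def EndR (σ : Bool) (f : DiffeoPlus) : Prop := ∀ M : ℝ, ∃ x, M < x ∧ S σ x (f x)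
/-- the same on the left -/
def EndL (σ : Bool) (f : DiffeoPlus) : Prop := ∀ M : ℝ, ∃ x, x < M ∧ S σ x (f x)

theorem EndR.inv {σ : Bool} {f : DiffeoPlus} (h : EndR σ f) : EndR (!σ) f⁻¹ := by
  intro M
  obtain ⟨x, h1, h2⟩ := h (f⁻¹ M)
  refine ⟨f x, (inv_lt_iff f).1 h1, ?_⟩
  rw [inv_ap]
  cases σ <;> simpa [S] using h2

theorem EndL.inv {σ : Bool} {f : DiffeoPlus} (h : EndL σ f) : EndL (!σ) f⁻¹ := by
  intro M
  obtain ⟨x, h1, h2⟩ := h (f⁻¹ M)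
  refine ⟨f x, (lt_inv_iff f).1 h1, ?_⟩
  rw [inv_ap]
  cases σ <;> simpa [S] using h2

theorem EndL.J {σ : Bool} {f : DiffeoPlus} (h : EndL σ f) : EndR (!σ) (J f) := by
  intro M
  obtain ⟨x, h1, h2⟩ := h (-M)
  refine ⟨-x, by linarith, ?_⟩
  rw [J_ap, neg_neg, S_neg]; exact h2

theorem EndR.J {σ : Bool} {f : DiffeoPlus} (h : EndR σ f) : EndL (!σ) (J f) := by
  intro M
  obtain ⟨x, h1, h2⟩ := h (-M)
  refine ⟨-x, by linarith, ?_⟩
  rw [J_ap, neg_neg, S_neg]; exact h2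

theorem stepS {f A : DiffeoPlus} (hf : EndR true f) (hA : Std A) {s' s1 : ℝ} (hs' : A s' < s')
    (ψ : DiffeoPlus) (h1 : s' < s1) (h2 : s1 < s' + 2) (h3 : A s1 ≤ s')
    (h4 : ψ (A s1) < f (ψ s')) (N : ℝ) :
    ∃ ψ' : DiffeoPlus, (∀ x ≤ s', ψ' x = ψ x) ∧
      (∀ y, s' ≤ y → y ≤ s' + 2 → ψ' (A y) < f (ψ' y)) ∧
      ψ' (s' + 2) < f (ψ' (s' + 2)) ∧ N ≤ ψ' (s' + 2) := by
  obtain ⟨u, hu1, hu2⟩ := hf (max N (ψ s'))
  have hu2' : u < f u := hu2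
  obtain ⟨ψa, ha1, ha2⟩ := step ψ (a := s') (b := s1) (z := u) h1
    (lt_of_le_of_lt (le_max_right _ _) hu1)
  obtain ⟨ψ', hb1, hb2⟩ := step ψa (a := s1) (b := s' + 2) (z := (u + f u) / 2) h2
    (by rw [ha2]; linarith)
  have e1 : ∀ x ≤ s', ψ' x = ψ x := by
    intro x hx
    rw [hb1 x (by linarith), ha1 x hx]
  have e2 : ψ' s1 = u := by rw [hb1 s1 le_rfl, ha2]
  refine ⟨ψ', e1, ?_, ?_, ?_⟩
  · intro y hy1 hy2
    rcases le_total y s1 with h5 | h5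
    · have i1 : A y ≤ s' := ((le_iff A).2 h5).trans h3
      have i2 : ψ' (A y) ≤ ψ (A s1) := by
        rw [e1 _ i1]; exact (le_iff ψ).2 ((le_iff A).2 h5)
      have i3 : f (ψ s') ≤ f (ψ' y) := by
        rw [← e1 s' le_rfl]
        exact (le_iff f).2 ((le_iff ψ').2 hy1)
      linarith
    · have i1 : A y < s' + 2 := by
        have := (le_iff A).2 hy2
        rw [hA.per] at this; linarith
      have i2 : ψ' (A y) < ψ' (s' + 2) := (lt_iff ψ').2 i1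
      have i3 : f (ψ' s1) ≤ f (ψ' y) := (le_iff f).2 ((le_iff ψ').2 h5)
      rw [e2] at i3
      rw [hb2] at i2
      linarith
  · rw [hb2]
    have : f u < f ((u + f u) / 2) := (lt_iff f).2 (by linarith)
    linarith
  · rw [hb2]
    have := le_max_left N (ψ s')
    linarith

theorem ra' {f A : DiffeoPlus} (hf : EndR true f) (hA : Std A) {s : ℝ} (hs : A s < s)
    (ψ0 : DiffeoPlus) (h0 : ψ0 s < f (ψ0 s)) :
    ∃ ψ : DiffeoPlus, (∀ x ≤ s, ψ x = ψ0 x) ∧ ∀ y, s ≤ y → ψ (A y) < f (ψ y) := by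
  obtain ⟨u, hu0, hP, hQ⟩ := rec_seq
    (fun n (ψ : DiffeoPlus) => ψ (s + 2 * n) < f (ψ (s + 2 * n)))
    (fun n (ψ ψ' : DiffeoPlus) => (∀ x ≤ s + 2 * (n : ℝ), ψ' x = ψ x) ∧
      (∀ y, s + 2 * (n : ℝ) ≤ y → y ≤ s + 2 * n + 2 → ψ' (A y) < f (ψ' y)) ∧
        (n : ℝ) ≤ ψ' (s + 2 * n + 2)) ψ0 (by simpa using h0) (by
      intro n ψ hψ
      have hs' : A (s + 2 * n) < s + 2 * n := by rw [hA.perN]; linarith
      have hbd := hA.bd (s + 2 * n)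
      rw [abs_lt] at hbd
      obtain ⟨ψ', g1, g2, g3, g4⟩ := stepS hf hA (s' := s + 2 * n) (s1 := A⁻¹ (s + 2 * n)) hs' ψ
        ((lt_inv_iff A).2 hs') ((inv_lt_iff A).2 (by rw [hA.per]; linarith [hbd.1]))
        (by rw [ap_inv]) (by rw [ap_inv]; exact hψ) n
      refine ⟨ψ', ?_, g1, g2, g4⟩
      have : s + 2 * ((n + 1 : ℕ) : ℝ) = s + 2 * n + 2 := by push_cast; ring
      rw [this]; exact g3)
  obtain ⟨Ψ, hΨ⟩ := lim u (fun n => s + 2 * (n : ℝ))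
    (by
      intro a b hab
      have : (a : ℝ) ≤ b := by exact_mod_cast hab
      show s + 2 * (a : ℝ) ≤ s + 2 * b
      linarith)
    (by
      intro M
      obtain ⟨n, hn⟩ := exists_nat_gt ((M - s) / 2)
      refine ⟨n, ?_⟩
      rw [div_lt_iff₀ (by norm_num)] at hn
      show M ≤ s + 2 * (n : ℝ)
      linarith)
    (fun n => (hQ n).1)
    (by
      intro M
      obtain ⟨n, hn⟩ := exists_nat_gt M
      refine ⟨n + 1, ?_⟩
      have h1 := (hQ n).2.2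
      have : s + 2 * ((n + 1 : ℕ) : ℝ) = s + 2 * n + 2 := by push_cast; ring
      show M ≤ u (n + 1) (s + 2 * ((n + 1 : ℕ) : ℝ))
      rw [this]; linarith)
  refine ⟨Ψ, ?_, ?_⟩
  · intro x hx
    rw [hΨ 0 x (by simpa using hx), hu0]
  · intro y hy
    obtain ⟨n, hn1, hn2⟩ : ∃ n : ℕ, s + 2 * (n : ℝ) ≤ y ∧ y ≤ s + 2 * n + 2 := by
      refine ⟨⌊(y - s) / 2⌋₊, ?_, ?_⟩
      · have := Nat.floor_le (show 0 ≤ (y - s) / 2 by linarith)
        linarith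
      · have := Nat.lt_floor_add_one ((y - s) / 2)
        linarith
    have h1 := (hQ n).2.1 y hn1 hn2
    have e : s + 2 * ((n + 1 : ℕ) : ℝ) = s + 2 * n + 2 := by push_cast; ring
    have h2 : Ψ y = u (n + 1) y := hΨ (n + 1) y (by show y ≤ s + 2 * ((n + 1 : ℕ) : ℝ); rw [e]; exact hn2)
    have h3 : A y ≤ s + 2 * ((n + 1 : ℕ) : ℝ) := by
      have h4 := (le_iff A).2 hn2
      have h5 : A (s + 2 * n + 2) = A s + 2 * n + 2 := by rw [hA.per, hA.perN]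
      rw [h5] at h4; rw [e]; linarith
    have h4 : Ψ (A y) = u (n + 1) (A y) := hΨ (n + 1) (A y) h3
    rw [h2, h4]; exact h1

theorem ra {f A : DiffeoPlus} (hf : EndR true f) (hA : Std A) {s : ℝ} (hs : A s < s)
    (ψ0 : DiffeoPlus) (h0 : ψ0 (A s) < f (ψ0 s)) :
    ∃ ψ : DiffeoPlus, (∀ x ≤ s, ψ x = ψ0 x) ∧ ∀ y, s ≤ y → ψ (A y) < f (ψ y) := by
  have hbd := hA.bd s
  rw [abs_lt] at hbd
  obtain ⟨s1, h1, h2, h3⟩ : ∃ s1, s < s1 ∧ s1 ≤ A⁻¹ s ∧ ψ0 (A s1) < f (ψ0 s) := by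
    have hc : Tendsto (fun x => ψ0 (A x)) (𝓝[>] s) (𝓝 (ψ0 (A s))) :=
      (((cont ψ0).comp (cont A)).tendsto s).mono_left nhdsWithin_le_nhds
    have e1 := hc.eventually_lt_const h0
    have e2 : ∀ᶠ x in 𝓝[>] s, x < A⁻¹ s :=
      (Filter.Eventually.filter_mono nhdsWithin_le_nhds (Iio_mem_nhds ((lt_inv_iff A).2 hs)))
    obtain ⟨s1, g1, g2, g3⟩ := (e1.and (e2.and self_mem_nhdsWithin)).exists
    exact ⟨s1, g3, g2.le, g1⟩
  obtain ⟨ψ1, g1, g2, g3, _⟩ := stepS hf hA (s' := s) (s1 := s1) hs ψ0 h1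
    (lt_of_le_of_lt h2 ((inv_lt_iff A).2 (by rw [hA.per]; linarith [hbd.1])))
    (by rwa [← le_inv_iff]) h3 0
  obtain ⟨ψ, k1, k2⟩ := ra' hf hA (s := s + 2) (by rw [hA.per]; linarith) ψ1 g3
  refine ⟨ψ, fun x hx => by rw [k1 x (by linarith), g1 x hx], ?_⟩
  intro y hy
  rcases le_total y (s + 2) with h5 | h5
  · have : A y ≤ s + 2 := by
      have := (le_iff A).2 h5
      rw [hA.per] at this; linarith
    rw [k1 y h5, k1 _ this]; exact g2 y hy h5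
  · exact k2 y h5

theorem rt {f A : DiffeoPlus} (hf : EndR true f) (hA : Std A) (s : ℝ)
    (ψ0 : DiffeoPlus) (h0 : ψ0 (A s) < f (ψ0 s)) :
    ∃ ψ : DiffeoPlus, (∀ x, x ≤ s ∨ x ≤ A s → ψ x = ψ0 x) ∧ ∀ y, s ≤ y → ψ (A y) < f (ψ y) := by
  rcases lt_or_ge (A s) s with h1 | h1
  · obtain ⟨ψ, k1, k2⟩ := ra hf hA h1 ψ0 h0
    refine ⟨ψ, ?_, k2⟩
    rintro x (hx | hx)
    · exact k1 x hx
    · exact k1 x (by linarith)
  · obtain ⟨r, hr1, hr2⟩ := hA.dnR (A s)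
    obtain ⟨ψ1, g1, g2⟩ := step ψ0 (a := A s) (b := r) (z := (ψ0 (A s) + f (ψ0 s)) / 2) hr1
      (by linarith)
    have g3 : ψ1 s = ψ0 s := g1 s h1
    have g4 : ∀ y, s ≤ y → y ≤ r → ψ1 (A y) < f (ψ1 y) := by
      intro y hy1 hy2
      have i1 : ψ1 (A y) < ψ1 r := (lt_iff ψ1).2 (lt_of_le_of_lt ((le_iff A).2 hy2) hr2)
      have i2 : f (ψ1 s) ≤ f (ψ1 y) := (le_iff f).2 ((le_iff ψ1).2 hy1)
      rw [g2] at i1; rw [g3] at i2
      linarith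
    obtain ⟨ψ, k1, k2⟩ := ra hf hA hr2 ψ1 (g4 r (by linarith) le_rfl)
    refine ⟨ψ, ?_, ?_⟩
    · intro x hx
      have hx' : x ≤ A s := by
        rcases hx with hx | hx
        · exact hx.trans h1
        · exact hx
      rw [k1 x (by linarith), g1 x hx']
    · intro y hy
      rcases le_total y r with h5 | h5
      · have : A y ≤ r := ((le_iff A).2 h5).trans hr2.le
        rw [k1 y h5, k1 _ this]; exact g4 y hy h5
      · exact k2 y h5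

theorem rgen {σ : Bool} {f A : DiffeoPlus} (hf : EndR σ f) (hA : Std A) (s : ℝ)
    (ψ0 : DiffeoPlus) (h0 : S σ (ψ0 (A s)) (f (ψ0 s))) :
    ∃ ψ : DiffeoPlus, (∀ x, x ≤ s ∨ x ≤ A s → ψ x = ψ0 x) ∧
      ∀ y, s ≤ y → S σ (ψ (A y)) (f (ψ y)) := by
  cases σ with
  | true => exact rt hf hA s ψ0 h0
  | false =>
    have h0' : f (ψ0 s) < ψ0 (A s) := h0
    obtain ⟨ψ, k1, k2⟩ := rt (f := f⁻¹) (A := A⁻¹) hf.inv hA.inv (A s) ψ0
      (by rw [inv_ap, lt_inv_iff]; exact h0')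
    refine ⟨ψ, ?_, ?_⟩
    · intro x hx
      refine k1 x ?_
      rw [inv_ap]; exact hx.symm
    · intro y hy
      have := k2 (A y) ((le_iff A).2 hy)
      rw [inv_ap, lt_inv_iff] at this
      exact this

theorem lgen {σ : Bool} {f A : DiffeoPlus} (hf : EndL σ f) (hA : Std A) (s : ℝ)
    (ψ0 : DiffeoPlus) (h0 : S σ (ψ0 (A s)) (f (ψ0 s))) :
    ∃ ψ : DiffeoPlus, (∀ x, s ≤ x ∨ A s ≤ x → ψ x = ψ0 x) ∧
      ∀ y, y ≤ s → S σ (ψ (A y)) (f (ψ y)) := by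
  obtain ⟨ψ, k1, k2⟩ := rgen (f := J f) (A := J A) hf.J hA.J (-s) (J ψ0) (by
    rw [J_ap A, J_ap ψ0, J_ap ψ0, J_ap f]
    simp only [neg_neg]
    rw [S_neg]; exact h0)
  refine ⟨J ψ, ?_, ?_⟩
  · intro x hx
    rw [J_ap, k1 (-x), J_ap]
    · simp
    · rw [J_ap, neg_neg]
      rcases hx with hx | hx
      · left; linarith
      · right; linarith
  · intro y hy
    have := k2 (-y) (by linarith)
    rw [J_ap A, J_ap f, neg_neg] at this
    rw [J_ap, J_ap, ← S_neg, neg_neg]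
    simpa using this

end Q33.Dif
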