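import Pool.Agent.Q33.Dif.Basic

set_option autoImplicit false

namespace Q33.Dif

open scoped ContDiff Topology
open Filter Set

theorem cd_deriv (f : DiffeoPlus) : ContDiff ℝ ∞ (deriv f) :=
  (contDiff_infty_iff_deriv.1 (cd f)).2

theorem int_deriv (f : DiffeoPlus) (a b : ℝ) : ∫ u in a..b, deriv f u = f b - f a := by
  refine intervalIntegral.integral_deriv_eq_sub (fun x _ => diffble f x) ?_
  exact ((cd_deriv f).continuous).intervalIntegrable _ _

/-- the weight -/
noncomputable def wt (s t ε C : ℝ) (a b : ℝ → ℝ) (x : ℝ) : ℝ :=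
  a x * (1 - Real.smoothTransition ((x - s) / ε)) +
    b x * (1 - Real.smoothTransition ((t - x) / ε)) +
      C * (Real.smoothTransition ((x - s) / ε) * Real.smoothTransition ((t - x) / ε))

theorem interp (α β : DiffeoPlus) {s t : ℝ} (hst : s < t) (h : α s < β t) :
    ∃ γ : DiffeoPlus, (∀ x ≤ s, γ x = α x) ∧ (∀ x, t ≤ x → γ x = β x) := by
  set Δ := β t - α s with hΔ
  have hΔ0 : 0 < Δ := by rw [hΔ]; linarith
  -- choice of ε
  have e1 : ∀ᶠ ε in 𝓝[>] (0 : ℝ), α (s + ε) < α s + Δ / 2 := by
    have : Tendsto (fun ε : ℝ => α (s + ε)) (𝓝 0) (𝓝 (α (s + 0))) :=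
      ((cont α).comp (by fun_prop : Continuous fun ε : ℝ => s + ε)).tendsto 0
    rw [add_zero] at this
    exact (this.mono_left nhdsWithin_le_nhds).eventually_lt_const (by linarith)
  have e2 : ∀ᶠ ε in 𝓝[>] (0 : ℝ), β t - Δ / 2 < β (t - ε) := by
    have : Tendsto (fun ε : ℝ => β (t - ε)) (𝓝 0) (𝓝 (β (t - 0))) :=
      ((cont β).comp (by fun_prop : Continuous fun ε : ℝ => t - ε)).tendsto 0
    rw [sub_zero] at this
    exact (this.mono_left nhdsWithin_le_nhds).eventually_const_lt (by linarith)
  have e3 : ∀ᶠ ε in 𝓝[>] (0 : ℝ), ε < (t - s) / 2 :=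
    (Filter.Eventually.filter_mono nhdsWithin_le_nhds (Iio_mem_nhds (by linarith)))
  obtain ⟨ε, hε1, hε2, hε3, hε0⟩ :=
    (e1.and (e2.and (e3.and self_mem_nhdsWithin))).exists
  have hε : 0 < ε := hε0
  have cη : Continuous Real.smoothTransition := Real.smoothTransition.continuous
  have cη1 : Continuous fun u : ℝ => Real.smoothTransition ((u - s) / ε) :=
    cη.comp (by fun_prop)
  have cη2 : Continuous fun u : ℝ => Real.smoothTransition ((t - u) / ε) :=
    cη.comp (by fun_prop)
  have cα : Continuous (deriv α) := (cd_deriv α).continuous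
  have cβ : Continuous (deriv β) := (cd_deriv β).continuous
  set I1 := ∫ u in s..t, deriv α u * (1 - Real.smoothTransition ((u - s) / ε)) with hI1
  set I2 := ∫ u in s..t, deriv β u * (1 - Real.smoothTransition ((t - u) / ε)) with hI2
  set I3 := ∫ u in s..t, (Real.smoothTransition ((u - s) / ε) *
    Real.smoothTransition ((t - u) / ε)) with hI3
  have c1 : Continuous fun u => deriv α u * (1 - Real.smoothTransition ((u - s) / ε)) := by
    fun_prop
  have c2 : Continuous fun u => deriv β u * (1 - Real.smoothTransition ((t - u) / ε)) := by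
    fun_prop
  have c3 : Continuous fun u => (Real.smoothTransition ((u - s) / ε) *
    Real.smoothTransition ((t - u) / ε)) := by fun_prop
  have b1 : I1 < Δ / 2 := by
    have s1 : I1 = (∫ u in s..(s + ε), deriv α u * (1 - Real.smoothTransition ((u - s) / ε))) +
        ∫ u in (s + ε)..t, deriv α u * (1 - Real.smoothTransition ((u - s) / ε)) :=
      (intervalIntegral.integral_add_adjacent_intervals (c1.intervalIntegrable _ _)
        (c1.intervalIntegrable _ _)).symm
    have s2 : ∫ u in (s + ε)..t, deriv α u * (1 - Real.smoothTransition ((u - s) / ε)) = 0 := by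
      have : ∫ u in (s + ε)..t, deriv α u * (1 - Real.smoothTransition ((u - s) / ε)) =
          ∫ u in (s + ε)..t, (0 : ℝ) := by
        refine intervalIntegral.integral_congr ?_
        intro u hu
        rw [uIcc_of_le (by linarith)] at hu
        have : 1 ≤ (u - s) / ε := by rw [le_div_iff₀ hε]; linarith [hu.1]
        simp only [Real.smoothTransition.one_of_one_le this]; ring
      rw [this]; simp
    have s3 : (∫ u in s..(s + ε), deriv α u * (1 - Real.smoothTransition ((u - s) / ε))) ≤
        ∫ u in s..(s + ε), deriv α u := by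
      refine intervalIntegral.integral_mono_on (by linarith) (c1.intervalIntegrable _ _)
        (cα.intervalIntegrable _ _) ?_
      intro u _
      have h1 := Real.smoothTransition.nonneg ((u - s) / ε)
      have h2 := (dpos α u).le
      nlinarith
    rw [int_deriv] at s3
    rw [s1, s2]; linarith
  have b2 : I2 < Δ / 2 := by
    have s1 : I2 = (∫ u in s..(t - ε), deriv β u * (1 - Real.smoothTransition ((t - u) / ε))) +
        ∫ u in (t - ε)..t, deriv β u * (1 - Real.smoothTransition ((t - u) / ε)) :=
      (intervalIntegral.integral_add_adjacent_intervals (c2.intervalIntegrable _ _)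
        (c2.intervalIntegrable _ _)).symm
    have s2 : ∫ u in s..(t - ε), deriv β u * (1 - Real.smoothTransition ((t - u) / ε)) = 0 := by
      have : ∫ u in s..(t - ε), deriv β u * (1 - Real.smoothTransition ((t - u) / ε)) =
          ∫ u in s..(t - ε), (0 : ℝ) := by
        refine intervalIntegral.integral_congr ?_
        intro u hu
        rw [uIcc_of_le (by linarith)] at hu
        have : 1 ≤ (t - u) / ε := by rw [le_div_iff₀ hε]; linarith [hu.2]
        simp only [Real.smoothTransition.one_of_one_le this]; ring
      rw [this]; simp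
    have s3 : (∫ u in (t - ε)..t, deriv β u * (1 - Real.smoothTransition ((t - u) / ε))) ≤
        ∫ u in (t - ε)..t, deriv β u := by
      refine intervalIntegral.integral_mono_on (by linarith) (c2.intervalIntegrable _ _)
        (cβ.intervalIntegrable _ _) ?_
      intro u _
      have h1 := Real.smoothTransition.nonneg ((t - u) / ε)
      have h2 := (dpos β u).le
      nlinarith
    rw [int_deriv] at s3
    rw [s1, s2]; linarith
  have b3 : 0 < I3 := by
    refine intervalIntegral.intervalIntegral_pos_of_pos_on (c3.intervalIntegrable _ _) ?_ hst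
    intro u hu
    exact mul_pos (Real.smoothTransition.pos_of_pos (div_pos (by linarith [hu.1]) hε))
      (Real.smoothTransition.pos_of_pos (div_pos (by linarith [hu.2]) hε))
  set C := (Δ - I1 - I2) / I3 with hC
  have hC0 : 0 < C := div_pos (by linarith) b3
  set ρ : ℝ → ℝ := wt s t ε C (deriv α) (deriv β) with hρ
  have ρcd : ContDiff ℝ ∞ ρ := by
    have h1 : ContDiff ℝ ∞ fun u : ℝ => Real.smoothTransition ((u - s) / ε) :=
      (Real.smoothTransition.contDiff (n := ⊤)).comp (by fun_prop)
    have h2 : ContDiff ℝ ∞ fun u : ℝ => Real.smoothTransition ((t - u) / ε) :=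
      (Real.smoothTransition.contDiff (n := ⊤)).comp (by fun_prop)
    have h3 := cd_deriv α
    have h4 := cd_deriv β
    exact (((h3.mul (contDiff_const.sub h1)).add (h4.mul (contDiff_const.sub h2))).add
      (contDiff_const.mul (h1.mul h2)))
  have cρ : Continuous ρ := ρcd.continuous
  have ρpos : ∀ x, 0 < ρ x := by
    intro x
    have p1 : 0 ≤ deriv α x * (1 - Real.smoothTransition ((x - s) / ε)) :=
      mul_nonneg (dpos α x).le (by linarith [Real.smoothTransition.le_one ((x - s) / ε)])
    have p2 : 0 ≤ deriv β x * (1 - Real.smoothTransition ((t - x) / ε)) :=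
      mul_nonneg (dpos β x).le (by linarith [Real.smoothTransition.le_one ((t - x) / ε)])
    have p3 : 0 ≤ C * (Real.smoothTransition ((x - s) / ε) *
        Real.smoothTransition ((t - x) / ε)) :=
      mul_nonneg hC0.le (mul_nonneg (Real.smoothTransition.nonneg _)
        (Real.smoothTransition.nonneg _))
    show 0 < wt s t ε C (deriv α) (deriv β) x
    unfold wt
    rcases lt_or_ge ((x - s) / ε) 1 with h1 | h1
    · have : 0 < deriv α x * (1 - Real.smoothTransition ((x - s) / ε)) :=
        mul_pos (dpos α x) (by linarith [Real.smoothTransition.lt_one_of_lt_one h1])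
      linarith
    · rcases lt_or_ge ((t - x) / ε) 1 with h2 | h2
      · have : 0 < deriv β x * (1 - Real.smoothTransition ((t - x) / ε)) :=
          mul_pos (dpos β x) (by linarith [Real.smoothTransition.lt_one_of_lt_one h2])
        linarith
      · have : 0 < C * (Real.smoothTransition ((x - s) / ε) *
            Real.smoothTransition ((t - x) / ε)) := by
          rw [Real.smoothTransition.one_of_one_le h1, Real.smoothTransition.one_of_one_le h2]
          linarith
        linarith
  have ρlo : ∀ x ≤ s, ρ x = deriv α x := by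
    intro x hx
    show wt s t ε C (deriv α) (deriv β) x = _
    unfold wt
    rw [Real.smoothTransition.zero_of_nonpos (div_nonpos_of_nonpos_of_nonneg (by linarith) hε.le),
      Real.smoothTransition.one_of_one_le (x := (t - x) / ε) (by
        rw [le_div_iff₀ hε]; linarith)]
    ring
  have ρhi : ∀ x, t ≤ x → ρ x = deriv β x := by
    intro x hx
    show wt s t ε C (deriv α) (deriv β) x = _
    unfold wt
    rw [Real.smoothTransition.zero_of_nonpos (x := (t - x) / ε)
      (div_nonpos_of_nonpos_of_nonneg (by linarith) hε.le),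
      Real.smoothTransition.one_of_one_le (x := (x - s) / ε) (by
        rw [le_div_iff₀ hε]; linarith)]
    ring
  have ρint : ∫ u in s..t, ρ u = Δ := by
    have : ∫ u in s..t, ρ u = I1 + I2 + C * I3 := by
      show ∫ u in s..t, wt s t ε C (deriv α) (deriv β) u = _
      unfold wt
      have c12 : Continuous fun u => deriv α u * (1 - Real.smoothTransition ((u - s) / ε)) +
          deriv β u * (1 - Real.smoothTransition ((t - u) / ε)) := c1.add c2
      have c4 : Continuous fun u => C * (Real.smoothTransition ((u - s) / ε) *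
          Real.smoothTransition ((t - u) / ε)) := continuous_const.mul c3
      rw [intervalIntegral.integral_add
        (c12.intervalIntegrable _ _) (c4.intervalIntegrable _ _),
        intervalIntegral.integral_add (c1.intervalIntegrable _ _) (c2.intervalIntegrable _ _),
        intervalIntegral.integral_const_mul]
    rw [this, hC]
    field_simp
    ring
  set F : ℝ → ℝ := fun x => α s + ∫ u in s..x, ρ u with hF
  have hder : ∀ x, HasDerivAt F (ρ x) x := by
    intro x
    exact (intervalIntegral.integral_hasDerivAt_right (cρ.intervalIntegrable _ _)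
      (cρ.stronglyMeasurableAtFilter _ _) cρ.continuousAt).const_add (α s)
  have hdF : deriv F = ρ := funext fun x => (hder x).deriv
  have Flo : ∀ x ≤ s, F x = α x := by
    intro x hx
    have : ∫ u in s..x, ρ u = ∫ u in s..x, deriv α u := by
      refine intervalIntegral.integral_congr ?_
      intro u hu
      rw [uIcc_of_ge hx] at hu
      exact ρlo u hu.2
    show α s + ∫ u in s..x, ρ u = _
    rw [this, int_deriv]; ring
  have Fhi : ∀ x, t ≤ x → F x = β x := by
    intro x hx
    have h1 : ∫ u in s..x, ρ u = (∫ u in s..t, ρ u) + ∫ u in t..x, ρ u :=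
      (intervalIntegral.integral_add_adjacent_intervals (cρ.intervalIntegrable _ _)
        (cρ.intervalIntegrable _ _)).symm
    have h2 : ∫ u in t..x, ρ u = ∫ u in t..x, deriv β u := by
      refine intervalIntegral.integral_congr ?_
      intro u hu
      rw [uIcc_of_le hx] at hu
      exact ρhi u hu.1
    show α s + ∫ u in s..x, ρ u = _
    rw [h1, h2, ρint, int_deriv, hΔ]; ring
  obtain ⟨γ, hγ⟩ : ∃ γ : DiffeoPlus, ∀ x, γ x = F x := by
    refine mk0 F ?_ ?_ ?_ ?_
    · rw [contDiff_infty_iff_deriv]
      refine ⟨fun x => (hder x).differentiableAt, ?_⟩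
      rw [hdF]; exact ρcd
    · intro x; rw [hdF]; exact ρpos x
    · intro M
      refine ⟨max t (β⁻¹ M), ?_⟩
      rw [Fhi _ (le_max_left _ _)]
      have := (le_iff β).2 (le_max_right t (β⁻¹ M))
      simpa using this
    · intro M
      refine ⟨min s (α⁻¹ M), ?_⟩
      rw [Flo _ (min_le_left _ _)]
      have := (le_iff α).2 (min_le_right s (α⁻¹ M))
      simpa using this
  exact ⟨γ, fun x hx => by rw [hγ, Flo x hx], fun x hx => by rw [hγ, Fhi x hx]⟩

/-- prescribe one more value -/
theorem step (ψ : DiffeoPlus) {a b z : ℝ} (hab : a < b) (hz : ψ a < z) :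
    ∃ ψ' : DiffeoPlus, (∀ x ≤ a, ψ' x = ψ x) ∧ ψ' b = z := by
  obtain ⟨γ, h1, h2⟩ := interp ψ (Tr (z - b)) hab (by rw [Tr_ap]; linarith)
  refine ⟨γ, h1, ?_⟩
  rw [h2 b le_rfl, Tr_ap]; ring

end Q33.Dif
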