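import Pool.Agent.Q33.Dif.Interp

set_option autoImplicit false

namespace Q33.Dif

open scoped ContDiff Topology
open Filter Set

/-- reflection -/
def J (f : DiffeoPlus) : DiffeoPlus :=
  ⟨(Equiv.neg ℝ).trans (f.1.trans (Equiv.neg ℝ)), by
    refine ⟨?_, ?_, ?_⟩
    · show ContDiff ℝ ∞ fun x : ℝ => - f (-x)
      exact ((cd f).comp contDiff_neg).neg
    · show ContDiff ℝ ∞ fun x : ℝ => - (f⁻¹ : DiffeoPlus) (-x)
      exact ((cd f⁻¹).comp contDiff_neg).neg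
    · intro x y hxy
      show - f (-x) < - f (-y)
      have := mono f (neg_lt_neg hxy)
      linarith⟩

theorem J_ap (f : DiffeoPlus) (x : ℝ) : J f x = - f (-x) := rfl
theorem J_mul (f g : DiffeoPlus) : J (f * g) = J f * J g := by
  apply ext; intro x
  rw [mul_ap, J_ap, J_ap, J_ap, mul_ap, neg_neg]
theorem J_one : J 1 = 1 := by
  apply ext; intro x; rw [J_ap, one_ap, one_ap, neg_neg]
theorem J_J (f : DiffeoPlus) : J (J f) = f := by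
  apply ext; intro x; rw [J_ap, J_ap, neg_neg, neg_neg]
theorem J_inv (f : DiffeoPlus) : J f⁻¹ = (J f)⁻¹ := by
  have : J f⁻¹ * J f = 1 := by rw [← J_mul, inv_mul_cancel, J_one]
  exact eq_inv_of_mul_eq_one_left this

theorem Rev.conj {g : DiffeoPlus} (h : Rev g) (c : DiffeoPlus) : Rev (c * g * c⁻¹) := by
  obtain ⟨k, hk⟩ := h
  refine ⟨c * k * c⁻¹, ?_⟩
  have : c * k * c⁻¹ * (c * g * c⁻¹) * (c * k * c⁻¹)⁻¹ = c * (k * g * k⁻¹) * c⁻¹ := by group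
  rw [this, hk]; group

theorem Rev.inv {g : DiffeoPlus} (h : Rev g) : Rev g⁻¹ := by
  obtain ⟨k, hk⟩ := h
  refine ⟨k, ?_⟩
  have : k * g⁻¹ * k⁻¹ = (k * g * k⁻¹)⁻¹ := by group
  rw [this, hk]

theorem Rev.J {g : DiffeoPlus} (h : Rev g) : Rev (J g) := by
  obtain ⟨k, hk⟩ := h
  refine ⟨Dif.J k, ?_⟩
  rw [← J_inv, ← J_inv, ← J_mul, ← J_mul, hk]

/-- products of two reversible elements -/
def R2 (f : DiffeoPlus) : Prop := ∃ g₁ g₂ : DiffeoPlus, Rev g₁ ∧ Rev g₂ ∧ f = g₁ * g₂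

/-- products of three reversible elements -/
def R3 (f : DiffeoPlus) : Prop :=
  ∃ g₁ g₂ g₃ : DiffeoPlus, Rev g₁ ∧ Rev g₂ ∧ Rev g₃ ∧ f = g₁ * g₂ * g₃

theorem R2.conj {f : DiffeoPlus} (h : R2 f) (c : DiffeoPlus) : R2 (c * f * c⁻¹) := by
  obtain ⟨a, b, ha, hb, rfl⟩ := h
  exact ⟨_, _, ha.conj c, hb.conj c, by group⟩

theorem R3.conj {f : DiffeoPlus} (h : R3 f) (c : DiffeoPlus) : R3 (c * f * c⁻¹) := by
  obtain ⟨a, b, d, ha, hb, hd, rfl⟩ := h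
  exact ⟨_, _, _, ha.conj c, hb.conj c, hd.conj c, by group⟩

theorem R3.of_conj {f : DiffeoPlus} (c : DiffeoPlus) (h : R3 (c * f * c⁻¹)) : R3 f := by
  have := h.conj c⁻¹
  have e : c⁻¹ * (c * f * c⁻¹) * c⁻¹⁻¹ = f := by group
  rwa [e] at this

theorem R3.inv {f : DiffeoPlus} (h : R3 f) : R3 f⁻¹ := by
  obtain ⟨a, b, d, ha, hb, hd, rfl⟩ := h
  exact ⟨_, _, _, hd.inv, hb.inv, ha.inv, by group⟩

theorem R3.J {f : DiffeoPlus} (h : R3 f) : R3 (J f) := by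
  obtain ⟨a, b, d, ha, hb, hd, rfl⟩ := h
  exact ⟨_, _, _, ha.J, hb.J, hd.J, by rw [J_mul, J_mul]⟩

theorem R3.of_R2 {f g κ : DiffeoPlus} (hg : Rev g) (h : R2 κ) (e : f = g * κ) : R3 f := by
  obtain ⟨a, b, ha, hb, rfl⟩ := h
  exact ⟨g, a, b, hg, ha, hb, by rw [e]; group⟩

theorem rec_seq {α : Type} (P : ℕ → α → Prop) (Q : ℕ → α → α → Prop) (a0 : α) (h0 : P 0 a0)
    (st : ∀ n a, P n a → ∃ b, P (n + 1) b ∧ Q n a b) :
    ∃ u : ℕ → α, u 0 = a0 ∧ (∀ n, P n (u n)) ∧ ∀ n, Q n (u n) (u (n + 1)) := by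
  classical
  choose! nx hnx using st
  let v : (n : ℕ) → {a : α // P n a} := fun n =>
    Nat.rec (motive := fun n => {a : α // P n a}) ⟨a0, h0⟩
      (fun n a => ⟨nx n a.1, (hnx n a.1 a.2).1⟩) n
  refine ⟨fun n => (v n).1, rfl, fun n => (v n).2, fun n => ?_⟩
  exact (hnx n (v n).1 (v n).2).2

theorem lim (ψ : ℕ → DiffeoPlus) (y : ℕ → ℝ) (ym : Monotone y) (hy : ∀ M, ∃ n, M ≤ y n)
    (h : ∀ n, ∀ x ≤ y n, ψ (n + 1) x = ψ n x) (hu : ∀ M, ∃ n, M ≤ ψ n (y n)) :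
    ∃ Ψ : DiffeoPlus, ∀ n, ∀ x ≤ y n, Ψ x = ψ n x := by
  classical
  have h1 : ∀ n m, n ≤ m → ∀ x ≤ y n, ψ m x = ψ n x := by
    intro n m hnm
    induction m, hnm using Nat.le_induction with
    | base => intro x _; rfl
    | succ m hm ih =>
      intro x hx
      rw [h m x (hx.trans (ym hm)), ih x hx]
  choose N hN using hy
  let F : ℝ → ℝ := fun x => ψ (N x) x
  have hF : ∀ n, ∀ x ≤ y n, F x = ψ n x := by
    intro n x hx
    rcases le_total n (N x) with h2 | h2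
    · exact h1 n (N x) h2 x hx
    · exact (h1 (N x) n h2 x (hN x)).symm
  obtain ⟨Ψ, hΨ⟩ : ∃ Ψ : DiffeoPlus, ∀ x, Ψ x = F x := by
    refine mk1 F ?_ ?_ ?_
    · intro x
      refine ⟨ψ (N (x + 1)), ?_⟩
      filter_upwards [Iio_mem_nhds (show x < x + 1 by linarith)] with z hz
      exact hF _ z ((le_of_lt hz).trans (hN _))
    · intro M
      obtain ⟨n, hn⟩ := hu M
      exact ⟨y n, by rw [hF n _ le_rfl]; exact hn⟩
    · intro M
      refine ⟨min (y 0) ((ψ 0)⁻¹ M), ?_⟩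
      rw [hF 0 _ (min_le_left _ _)]
      have := (le_iff (ψ 0)).2 (min_le_right (y 0) ((ψ 0)⁻¹ M))
      simpa using this
  exact ⟨Ψ, fun n x hx => by rw [hΨ, hF n x hx]⟩

end Q33.Dif
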