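import Pool.Agent.Q33.Dif.Cnj

set_option autoImplicit false

namespace Q33.Dif

open scoped ContDiff Topology
open Filter Set

theorem S_map (σ : Bool) (f : DiffeoPlus) (a b : ℝ) : S σ (f a) (f b) ↔ S σ a b := by
  cases σ <;> simp [S, lt_iff]

theorem S_quot {σ : Bool} {f g : DiffeoPlus} {x : ℝ} (h : S σ (g x) (f x)) :
    S σ x ((g⁻¹ * f) x) := by
  rw [← S_map σ g, mul_ap, ap_inv]; exact h

theorem EndR.conj {σ : Bool} {f : DiffeoPlus} (h : EndR σ f) (c : DiffeoPlus) :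
    EndR σ (c⁻¹ * f * c) := by
  intro M
  obtain ⟨x, h1, h2⟩ := h (c M)
  refine ⟨c⁻¹ x, (lt_inv_iff c).2 h1, ?_⟩
  rw [mul_ap, mul_ap, ap_inv, S_map]; exact h2

theorem EndL.conj {σ : Bool} {f : DiffeoPlus} (h : EndL σ f) (c : DiffeoPlus) :
    EndL σ (c⁻¹ * f * c) := by
  intro M
  obtain ⟨x, h1, h2⟩ := h (c M)
  refine ⟨c⁻¹ x, (inv_lt_iff c).2 h1, ?_⟩
  rw [mul_ap, mul_ap, ap_inv, S_map]; exact h2

theorem Std.endR {A : DiffeoPlus} (h : Std A) (σ : Bool) : EndR σ A := by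
  intro M
  cases σ with
  | true =>
    obtain ⟨x, hx⟩ := h.up
    obtain ⟨n, hn⟩ := exists_nat_gt (M - x)
    refine ⟨x + 2 * n, ?_, ?_⟩
    · have : (0 : ℝ) ≤ n := Nat.cast_nonneg n
      linarith
    · rw [h.perN]; show _ < _; linarith
  | false => exact h.dnR M

theorem Std.endL {A : DiffeoPlus} (h : Std A) (σ : Bool) : EndL σ A := by
  have := (h.J.endR (!σ)).J
  rwa [J_J, Bool.not_not] at this

theorem mc {σ σ' : Bool} {f A : DiffeoPlus} (hf : 2 < f (-1)) (hR : EndR σ f) (hL : EndL σ' f)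
    (hA : Std A) (K : DiffeoPlus) (hK1 : S σ 1 (K 1)) (hK2 : S σ' (-1) (K (-1))) (hK3 : K 1 < 2) :
    ∃ g : DiffeoPlus, (∃ c : DiffeoPlus, g = c * A * c⁻¹) ∧
      (∀ x ∈ Icc (-1 : ℝ) 1, (g⁻¹ * f) x = K x) ∧
      (∀ x : ℝ, 1 ≤ x → S σ x ((g⁻¹ * f) x)) ∧ (∀ x : ℝ, x ≤ -1 → S σ' x ((g⁻¹ * f) x)) := by
  obtain ⟨yc, hyc⟩ := hA.up
  obtain ⟨ρ, hρ1, hρ0⟩ : ∃ ρ : ℝ, yc + ρ < A (yc - ρ) ∧ 0 < ρ := by
    have h1 : Tendsto (fun ρ : ℝ => A (yc - ρ) - (yc + ρ)) (𝓝[>] 0)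
        (𝓝 (A (yc - 0) - (yc + 0))) := by
      have : Continuous fun ρ : ℝ => A (yc - ρ) - (yc + ρ) :=
        ((cont A).comp (by fun_prop)).sub (by fun_prop)
      exact (this.tendsto 0).mono_left nhdsWithin_le_nhds
    have h2 := h1.eventually_const_lt (u := 0) (by simpa using hyc)
    obtain ⟨ρ, g1, g2⟩ := (h2.and self_mem_nhdsWithin).exists
    exact ⟨ρ, by linarith, g2⟩
  set yp := yc + ρ with hyp
  set ym := yc - ρ with hym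
  have hmp : ym < yp := by rw [hyp, hym]; linarith
  set l : DiffeoPlus := Aff (1 / ρ) (-yc / ρ) (by positivity) with hl
  have lap : ∀ x, l x = (x - yc) / ρ := by
    intro x; rw [hl, Aff_ap]; ring
  have lp : l yp = 1 := by rw [lap, hyp]; field_simp; ring
  have lm : l ym = -1 := by rw [lap, hym]; field_simp; ring
  obtain ⟨ψ0, p1, p2⟩ := interp (K * l) (f * l * A⁻¹) (s := yp) (t := A ym) hρ1 (by
    rw [mul_ap, mul_ap, mul_ap, inv_ap, lp, lm]; linarith)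
  have q1 : ∀ x ≤ yp, ψ0 x = K (l x) := fun x hx => p1 x hx
  have q2 : ∀ y, ym ≤ y → ψ0 (A y) = f (l y) := by
    intro y hy
    rw [p2 _ ((le_iff A).2 hy), mul_ap, mul_ap, inv_ap]
  obtain ⟨ψ1, r1, r2⟩ := rgen hR hA yp ψ0 (by
    rw [q2 yp hmp.le, q1 yp le_rfl, S_map, lp]; exact hK1)
  obtain ⟨ψ2, s1, s2⟩ := lgen hL hA ym ψ1 (by
    rw [r1 (A ym) (Or.inr ((le_iff A).2 hmp.le)), r1 ym (Or.inl hmp.le), q2 ym le_rfl,
      q1 ym hmp.le, S_map, lm]; exact hK2)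
  have t1 : ∀ y, ym ≤ y → y ≤ yp → ψ2 y = K (l y) := by
    intro y h1 h2
    rw [s1 y (Or.inl h1), r1 y (Or.inl h2), q1 y h2]
  have t2 : ∀ y, ym ≤ y → y ≤ yp → ψ2 (A y) = f (l y) := by
    intro y h1 h2
    rw [s1 (A y) (Or.inr ((le_iff A).2 h1)), r1 (A y) (Or.inr ((le_iff A).2 h2)), q2 y h1]
  have t3 : ∀ y, yp ≤ y → S σ (ψ2 (A y)) (f (ψ2 y)) := by
    intro y h1
    rw [s1 (A y) (Or.inr ((le_iff A).2 (by linarith))), s1 y (Or.inl (by linarith))]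
    exact r2 y h1
  set g := ψ2 * A * ψ2⁻¹ with hg
  have gap : ∀ y, g (ψ2 y) = ψ2 (A y) := by
    intro y; rw [hg, mul_ap, mul_ap, inv_ap]
  have m1 : ∀ x ∈ Icc (-1 : ℝ) 1, (g⁻¹ * f) x = K x := by
    intro x hx
    have h1 : ym ≤ l⁻¹ x := by rw [le_inv_iff, lm]; exact hx.1
    have h2 : l⁻¹ x ≤ yp := by rw [inv_le_iff, lp]; exact hx.2
    rw [mul_ap, inv_eq_iff]
    have h3 := gap (l⁻¹ x)
    rw [t1 _ h1 h2, t2 _ h1 h2, ap_inv] at h3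
    exact h3.symm
  have k1 : (g⁻¹ * f) 1 = K 1 := m1 1 (by constructor <;> norm_num)
  have k2 : (g⁻¹ * f) (-1) = K (-1) := m1 (-1) (by constructor <;> norm_num)
  have u1 : ∀ x, K 1 ≤ x → S σ x ((g⁻¹ * f) x) := by
    intro x hx
    apply S_quot
    have h1 : yp ≤ ψ2⁻¹ x := by rw [le_inv_iff, t1 yp hmp.le le_rfl, lp]; exact hx
    have h2 := t3 _ h1
    rw [← gap, ap_inv] at h2; exact h2
  have u2 : ∀ x, x ≤ K (-1) → S σ' x ((g⁻¹ * f) x) := by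
    intro x hx
    apply S_quot
    have h1 : ψ2⁻¹ x ≤ ym := by rw [inv_le_iff, t1 ym le_rfl hmp.le, lm]; exact hx
    have h2 := s2 _ h1
    rw [← gap, ap_inv] at h2; exact h2
  refine ⟨g, ⟨ψ2, rfl⟩, m1, ?_, ?_⟩
  · intro x hx
    rcases le_or_gt (K 1) x with h1 | h1
    · exact u1 x h1
    · cases σ with
      | false =>
        have : K 1 < 1 := hK1
        exact u1 x (by linarith)
      | true =>
        have h2 := (le_iff (g⁻¹ * f)).2 hx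
        rw [k1] at h2
        show x < _
        linarith
  · intro x hx
    rcases le_or_gt x (K (-1)) with h1 | h1
    · exact u2 x h1
    · cases σ' with
      | true =>
        have : -1 < K (-1) := hK2
        exact u2 x (by linarith)
      | false =>
        have h2 := (le_iff (g⁻¹ * f)).2 hx
        rw [k2] at h2
        show _ < x
        linarith

theorem exists_K (σ σ' : Bool) : ∃ K : DiffeoPlus, S σ 1 (K 1) ∧ S σ' (-1) (K (-1)) ∧ K 1 < 2 := by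
  cases σ <;> cases σ'
  · refine ⟨Tr (-1 / 2), ?_, ?_, ?_⟩ <;> simp only [S, Tr_ap] <;> norm_num
  · refine ⟨Aff (1 / 2) 0 (by norm_num), ?_, ?_, ?_⟩ <;> simp only [S, Aff_ap] <;> norm_num
  · refine ⟨Aff (3 / 2) 0 (by norm_num), ?_, ?_, ?_⟩ <;> simp only [S, Aff_ap] <;> norm_num
  · refine ⟨Tr (1 / 2), ?_, ?_, ?_⟩ <;> simp only [S, Tr_ap] <;> norm_num

theorem norm_conj {f : DiffeoPlus} {x0 : ℝ} (h : x0 < f x0) :
    ∃ c : DiffeoPlus, 2 < (c⁻¹ * f * c) (-1) := by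
  obtain ⟨ε, hε1, hε0⟩ : ∃ ε : ℝ, x0 + 2 * ε < f (x0 - ε) ∧ 0 < ε := by
    have h1 : Tendsto (fun ρ : ℝ => f (x0 - ρ) - (x0 + 2 * ρ)) (𝓝[>] 0)
        (𝓝 (f (x0 - 0) - (x0 + 2 * 0))) := by
      have : Continuous fun ρ : ℝ => f (x0 - ρ) - (x0 + 2 * ρ) :=
        ((cont f).comp (by fun_prop)).sub (by fun_prop)
      exact (this.tendsto 0).mono_left nhdsWithin_le_nhds
    have h2 := h1.eventually_const_lt (u := 0) (by simpa using h)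
    obtain ⟨ρ, g1, g2⟩ := (h2.and self_mem_nhdsWithin).exists
    exact ⟨ρ, by linarith, g2⟩
  refine ⟨Aff ε x0 hε0, ?_⟩
  rw [mul_ap, mul_ap, lt_inv_iff, Aff_ap, Aff_ap]
  have e1 : ε * 2 + x0 = x0 + 2 * ε := by ring
  have e2 : ε * (-1) + x0 = x0 - ε := by ring
  rw [e1, e2]; exact hε1

theorem R2.of_conj' {κ κ' ψ : DiffeoPlus} (h : κ' = ψ * κ * ψ⁻¹) (h2 : R2 κ') : R2 κ := by
  have e : κ = ψ⁻¹ * κ' * ψ⁻¹⁻¹ := by rw [h]; group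
  rw [e]; exact h2.conj _

theorem main_nz {f : DiffeoPlus} {σ σ' : Bool} (hR : EndR σ f) (hL : EndL σ' f) {x0 : ℝ}
    (h : x0 < f x0) : R3 f := by
  obtain ⟨A, hA1, hA2, _⟩ := exists_A
  obtain ⟨K, k1, k2, k3⟩ := exists_K σ σ'
  obtain ⟨c, hc⟩ := norm_conj h
  obtain ⟨a0, ha0⟩ := hA2.up
  obtain ⟨c', hc'⟩ := norm_conj ha0
  obtain ⟨g, ⟨d, hd⟩, m1, m2, m3⟩ := mc hc (hR.conj c) (hL.conj c) hA2 K k1 k2 k3
  obtain ⟨g', ⟨d', hd'⟩, n1, n2, n3⟩ :=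
    mc hc' ((hA2.endR σ).conj c') ((hA2.endL σ').conj c') hA2 K k1 k2 k3
  have hκ' : R2 (g'⁻¹ * (c'⁻¹ * A * c')) := by
    refine ⟨_, _, ?_, ?_, rfl⟩
    · rw [hd']; exact (hA1.conj d').inv
    · have := hA1.conj c'⁻¹
      rwa [inv_inv] at this
  obtain ⟨ψ, hψ⟩ := conjMid (σ := σ) (σ' := σ') (κ := g⁻¹ * (c⁻¹ * f * c))
    (κ' := g'⁻¹ * (c'⁻¹ * A * c')) (a := -1) (b := 1) (by norm_num)
    (fun x hx => by rw [m1 x hx, n1 x hx]) m2 n2 m3 n3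
  have h1 : R3 (c⁻¹ * f * c) := by
    refine R3.of_R2 (g := g) ?_ (R2.of_conj' hψ hκ') (by group)
    rw [hd]; exact hA1.conj d
  have h2 := h1.conj c
  have e : c * (c⁻¹ * f * c) * c⁻¹ = f := by group
  rwa [e] at h2

theorem zhelp {f B : DiffeoPlus} (hL : EndL true f) (hB : Std B) {s : ℝ} (hs : B s < s)
    (h0 : B s < f s) : ∃ g : DiffeoPlus, (∃ ψ : DiffeoPlus, g = ψ * B * ψ⁻¹) ∧
      (∀ x, s ≤ x → g x = B x) ∧ (∀ x, x ≤ s → g x < f x) := by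
  obtain ⟨ψ, h1, h2⟩ := lgen hL hB s 1 (by rw [one_ap, one_ap]; exact h0)
  have h1' : ∀ x, B s ≤ x → ψ x = x := by
    intro x hx; rw [h1 x (Or.inr hx), one_ap]
  refine ⟨ψ * B * ψ⁻¹, ⟨ψ, rfl⟩, ?_, ?_⟩
  · intro x hx
    have e1 : ψ⁻¹ x = x := by rw [inv_eq_iff, h1' x (by linarith)]
    rw [mul_ap, mul_ap, e1, h1' _ ((le_iff B).2 hx)]
  · intro x hx
    have e1 : ψ⁻¹ x ≤ s := by rw [inv_le_iff, h1' s hs.le]; exact hx
    have := h2 _ e1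
    rw [ap_inv] at this
    rw [mul_ap, mul_ap]; exact this

theorem Rev.sq {g : DiffeoPlus} (h : Rev g) : Rev (g * g) := by
  obtain ⟨k, hk⟩ := h
  refine ⟨k, ?_⟩
  have : k * (g * g) * k⁻¹ = (k * g * k⁻¹) * (k * g * k⁻¹) := by group
  rw [this, hk]; group

theorem main_z {f : DiffeoPlus} {M : ℝ} (hid : ∀ x, M ≤ x → f x = x) (hL : EndL true f) :
    R3 f := by
  obtain ⟨A, hA1, hA2, hA3⟩ := exists_A
  have hB : Std (A * A) := by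
    refine ⟨?_, ?_, ?_, ?_⟩
    · intro x; rw [mul_ap, mul_ap, hA2.per, hA2.per]
    · intro x
      have h1 := hA3 x
      have h2 := hA3 (A x)
      rw [mul_ap]
      rw [abs_lt] at h1 h2 ⊢
      constructor <;> linarith [h1.1, h1.2, h2.1, h2.2]
    · obtain ⟨x, hx⟩ := hA2.up
      exact ⟨x, by rw [mul_ap]; exact hx.trans ((lt_iff A).2 hx)⟩
    · obtain ⟨x, hx⟩ := hA2.dn
      exact ⟨x, by rw [mul_ap]; exact ((lt_iff A).2 hx).trans hx⟩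
  obtain ⟨s, hs1, hs2⟩ := hA2.dnR M
  have hs3 : A (A s) < s := ((lt_iff A).2 hs2).trans hs2
  have hs4 : s < A⁻¹ s := (lt_inv_iff A).2 hs2
  obtain ⟨g, ⟨ψ, hg⟩, g1, g2⟩ := zhelp hL hB (s := s) hs3 (by
    rw [hid s hs1.le]; exact hs3)
  obtain ⟨q, ⟨ψ', hq⟩, q1, q2⟩ := zhelp (f := A⁻¹) (B := A) (hA2.inv.endL true) hA2 hs2
    (hs2.trans hs4)
  have hinv : ∀ x, s ≤ x → s ≤ A⁻¹ x := by
    intro x hx
    have := (le_iff A⁻¹).2 hx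
    linarith
  have κ1 : ∀ x, s ≤ x → (g⁻¹ * f) x = A⁻¹ (A⁻¹ x) := by
    intro x hx
    rw [mul_ap, inv_eq_iff, hid x (by linarith), g1 _ (hinv _ (hinv _ hx)), mul_ap, ap_inv,
      ap_inv]
  have κ2 : ∀ x, s ≤ x → (q⁻¹ * A⁻¹) x = A⁻¹ (A⁻¹ x) := by
    intro x hx
    rw [mul_ap, inv_eq_iff, q1 _ (hinv _ (hinv _ hx)), ap_inv]
  obtain ⟨θ, hθ⟩ := conjL (σ := true) (κ := g⁻¹ * f) (κ' := q⁻¹ * A⁻¹) (a := s)
    (fun x hx => by rw [κ1 x hx, κ2 x hx]) (fun x hx => S_quot (g2 x hx))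
    (fun x hx => S_quot (q2 x hx))
  refine R3.of_R2 (g := g) ?_ (R2.of_conj' hθ ⟨_, _, ?_, hA1.inv, rfl⟩) (by group)
  · rw [hg]; exact hA1.sq.conj ψ
  · rw [hq]; exact (hA1.conj ψ').inv

end Q33.Dif
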