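import Pool.Agent.Q33.Dif.Lim

set_option autoImplicit false

namespace Q33.Dif

open scoped ContDiff Topology
open Filter Set

theorem zpow_fix (φ : DiffeoPlus) {x : ℝ} (h : φ x = x) (n : ℤ) : (φ ^ n) x = x := by
  have h' : φ⁻¹ x = x := by rw [inv_eq_iff, h]
  induction n using Int.induction_on with
  | zero => simp
  | succ n ih => rw [zpow_add, zpow_one, mul_ap, h, ih]
  | pred n ih => rw [zpow_sub, zpow_one, mul_ap, h', ih]

/-- `φ` is the identity outside `(0,1)` -/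
def Sup (φ : DiffeoPlus) : Prop := ∀ x : ℝ, x ≤ 0 ∨ 1 ≤ x → φ x = x

theorem Sup.zpow {φ : DiffeoPlus} (h : Sup φ) (n : ℤ) : Sup (φ ^ n) :=
  fun x hx => zpow_fix φ (h x hx) n

theorem Sup.zero {φ : DiffeoPlus} (h : Sup φ) : φ 0 = 0 := h 0 (Or.inl le_rfl)
theorem Sup.one {φ : DiffeoPlus} (h : Sup φ) : φ 1 = 1 := h 1 (Or.inr le_rfl)
theorem Sup.nonneg {φ : DiffeoPlus} (h : Sup φ) {x : ℝ} (hx : 0 ≤ x) : 0 ≤ φ x := by
  have := (le_iff φ).2 hx
  rwa [h.zero] at this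
theorem Sup.le_one {φ : DiffeoPlus} (h : Sup φ) {x : ℝ} (hx : x ≤ 1) : φ x ≤ 1 := by
  have := (le_iff φ).2 hx
  rwa [h.one] at this
theorem Sup.lt_one {φ : DiffeoPlus} (h : Sup φ) {x : ℝ} (hx : x < 1) : φ x < 1 := by
  have := (lt_iff φ).2 hx
  rwa [h.one] at this

/-- the map acts on `[k,k+1]` as the `e k`-th power of the copy of `φ` -/
def Pat (φ g : DiffeoPlus) (e : ℤ → ℤ) : Prop :=
  ∀ k : ℤ, ∀ x : ℝ, (k : ℝ) ≤ x → x ≤ k + 1 → g x = (φ ^ (e k)) (x - k) + k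

theorem Pat.mul {φ g g' : DiffeoPlus} {e e' : ℤ → ℤ} (hφ : Sup φ) (h : Pat φ g e)
    (h' : Pat φ g' e') : Pat φ (g * g') (fun k => e k + e' k) := by
  intro k x h1 h2
  have h3 := (hφ.zpow (e' k)).nonneg (x := x - k) (by linarith)
  have h4 := (hφ.zpow (e' k)).le_one (x := x - k) (by linarith)
  rw [mul_ap, h' k x h1 h2, h k _ (by linarith) (by linarith), zpow_add, mul_ap]
  congr 2; ring

theorem Pat.inv {φ g : DiffeoPlus} {e : ℤ → ℤ} (hφ : Sup φ) (h : Pat φ g e) :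
    Pat φ g⁻¹ (fun k => - e k) := by
  intro k x h1 h2
  have h3 := (hφ.zpow (-e k)).nonneg (x := x - k) (by linarith)
  have h4 := (hφ.zpow (-e k)).le_one (x := x - k) (by linarith)
  rw [inv_eq_iff, h k _ (by linarith) (by linarith)]
  have : (φ ^ (-e k)) (x - k) + k - k = (φ ^ (-e k)) (x - k) := by ring
  rw [this, ← mul_ap, ← zpow_add, add_neg_cancel, zpow_zero, one_ap]; ring

theorem Pat.tr {φ g : DiffeoPlus} {e : ℤ → ℤ} (h : Pat φ g e) (j : ℤ) :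
    Pat φ (Tr j * g * (Tr j)⁻¹) (fun k => e (k - j)) := by
  intro k x h1 h2
  rw [mul_ap, mul_ap, Tr_inv_ap, Tr_ap, h (k - j) (x - j) (by push_cast; linarith)
    (by push_cast; linarith)]
  push_cast
  have : x - (j : ℝ) - (k - j) = x - k := by ring
  rw [this]; ring

theorem Pat.ext {φ g g' : DiffeoPlus} {e e' : ℤ → ℤ} (h : Pat φ g e) (h' : Pat φ g' e')
    (he : ∀ k, e k = e' k) : g = g' := by
  apply Dif.ext; intro x
  rw [h ⌊x⌋ x (Int.floor_le x) (Int.lt_floor_add_one x).le,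
    h' ⌊x⌋ x (Int.floor_le x) (Int.lt_floor_add_one x).le, he]

theorem Pat.exists {φ : DiffeoPlus} (hφ : Sup φ) (e : ℤ → ℤ) : ∃ g : DiffeoPlus, Pat φ g e := by
  let F : ℝ → ℝ := fun x => (φ ^ (e ⌊x⌋)) (x - ⌊x⌋) + ⌊x⌋
  have hF : ∀ k : ℤ, ∀ x : ℝ, (k : ℝ) ≤ x → x ≤ k + 1 → F x = (φ ^ (e k)) (x - k) + k := by
    intro k x h1 h2
    rcases h2.lt_or_eq with h3 | h3
    · have : ⌊x⌋ = k := by
        rw [Int.floor_eq_iff]; exact ⟨h1, h3⟩
      show (φ ^ (e ⌊x⌋)) (x - ⌊x⌋) + ⌊x⌋ = _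
      rw [this]
    · have : ⌊x⌋ = k + 1 := by
        rw [Int.floor_eq_iff, h3]; push_cast; constructor <;> linarith
      show (φ ^ (e ⌊x⌋)) (x - ⌊x⌋) + ⌊x⌋ = _
      rw [this, h3]
      have e1 : (k : ℝ) + 1 - ((k + 1 : ℤ) : ℝ) = 0 := by push_cast; ring
      have e2 : (k : ℝ) + 1 - (k : ℝ) = 1 := by ring
      rw [e1, e2, (hφ.zpow _).zero, (hφ.zpow _).one]
      push_cast; ring
  obtain ⟨g, hg⟩ : ∃ g : DiffeoPlus, ∀ x, g x = F x := by
    refine mk1 F ?_ ?_ ?_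
    · intro x
      set k := ⌊x⌋ with hk
      have hk1 : (k : ℝ) ≤ x := Int.floor_le x
      have hk2 : x < k + 1 := Int.lt_floor_add_one x
      refine ⟨(Tr k * φ ^ (e k) * (Tr k)⁻¹) *
        (Tr (k - 1) * φ ^ (e (k - 1)) * (Tr (k - 1))⁻¹), ?_⟩
      filter_upwards [Ioo_mem_nhds (show (k : ℝ) - 1 < x by linarith) hk2] with z hz
      rw [mul_ap, mul_ap, mul_ap, mul_ap, mul_ap, Tr_inv_ap, Tr_inv_ap, Tr_ap, Tr_ap]
      rcases le_total z k with h3 | h3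
      · rw [hF (k - 1) z (by push_cast; linarith [hz.1]) (by push_cast; linarith)]
        have h4 := (hφ.zpow (e (k - 1))).le_one (x := z - (k - 1)) (by linarith)
        rw [(hφ.zpow (e k)) _ (Or.inl (by linarith))]
        push_cast; ring
      · rw [hF k z h3 hz.2.le, (hφ.zpow (e (k - 1))) (z - (k - 1)) (Or.inr (by linarith))]
        congr 2; ring
    · intro M
      refine ⟨(⌈M⌉ : ℤ), ?_⟩
      rw [hF ⌈M⌉ _ le_rfl (by linarith), sub_self, (hφ.zpow _).zero]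
      linarith [Int.le_ceil M]
    · intro M
      refine ⟨(⌊M⌋ : ℤ), ?_⟩
      rw [hF ⌊M⌋ _ le_rfl (by linarith), sub_self, (hφ.zpow _).zero]
      linarith [Int.floor_le M]
  exact ⟨g, fun k x h1 h2 => by rw [hg, hF k x h1 h2]⟩

/-- alternating signs -/
def alt (k : ℤ) : ℤ := if Even k then 1 else -1

theorem alt_sub (k : ℤ) : alt (k - 1) = - alt k := by
  unfold alt
  by_cases h : Even k
  · have : ¬ Even (k - 1) := by rw [Int.not_even_iff_odd]; exact h.sub_odd odd_one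
    rw [if_pos h, if_neg this]
  · have : Even (k - 1) := by
      rw [Int.not_even_iff_odd] at h; exact h.sub_odd odd_one
    rw [if_neg h, if_pos this]; rfl

theorem alt_sub2 (k : ℤ) : alt (k - 2) = alt k := by
  have h1 := alt_sub k
  have h2 := alt_sub (k - 1)
  have : k - 1 - 1 = k - 2 := by ring
  rw [this] at h2
  rw [h2, h1]; ring

/-- standard diffeomorphisms -/
structure Std (A : DiffeoPlus) : Prop where
  per : ∀ x, A (x + 2) = A x + 2
  bd : ∀ x, |A x - x| < 2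
  up : ∃ x, x < A x
  dn : ∃ x, A x < x

theorem alt_rev {φ g : DiffeoPlus} (hφ : Sup φ) (h : Pat φ g alt) : Rev g := by
  refine ⟨Tr ((1 : ℤ) : ℝ), ?_⟩
  exact (h.tr 1).ext (h.inv hφ) alt_sub

theorem alt_std {φ g : DiffeoPlus} (hφ : Sup φ) (h : Pat φ g alt) {x0 : ℝ} (hx0 : 0 ≤ x0)
    (hx1 : x0 ≤ 1) (hx : x0 < φ x0) : Std g ∧ ∀ x, |g x - x| < 1 := by
  have hbd : ∀ x, |g x - x| < 1 := by
    intro x
    have h1 := Int.floor_le x
    have h2 := Int.lt_floor_add_one x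
    rw [h ⌊x⌋ x h1 h2.le]
    have h3 := (hφ.zpow (alt ⌊x⌋)).nonneg (x := x - ⌊x⌋) (by linarith)
    have h4 := (hφ.zpow (alt ⌊x⌋)).lt_one (x := x - ⌊x⌋) (by linarith)
    rw [abs_lt]; constructor <;> linarith
  refine ⟨⟨?_, fun x => (hbd x).trans (by norm_num), ?_, ?_⟩, hbd⟩
  · intro x
    have h1 : Tr ((2 : ℤ) : ℝ) * g * (Tr ((2 : ℤ) : ℝ))⁻¹ = g := (h.tr 2).ext h alt_sub2
    have h2 : (Tr ((2 : ℤ) : ℝ) * g * (Tr ((2 : ℤ) : ℝ))⁻¹) (x + 2) = g x + 2 := by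
      rw [mul_ap, mul_ap, Tr_inv_ap, Tr_ap]; push_cast; congr 2; ring
    rw [h1] at h2; exact h2
  · refine ⟨x0, ?_⟩
    have h0 : alt 0 = 1 := by unfold alt; simp
    rw [h 0 x0 (by simpa using hx0) (by simpa using hx1), h0]; simpa using hx
  · refine ⟨φ x0 + 1, ?_⟩
    have h0 : alt 1 = -1 := by unfold alt; simp
    have h1 := hφ.nonneg hx0
    have h2 := hφ.le_one hx1
    rw [h 1 (φ x0 + 1) (by push_cast; linarith) (by push_cast; linarith), h0]
    simpa using hx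

theorem exists_A : ∃ A : DiffeoPlus, Rev A ∧ Std A ∧ ∀ x, |A x - x| < 1 := by
  obtain ⟨ψ, h1, h2⟩ := step 1 (a := 1 / 8) (b := 1 / 2) (z := 5 / 8) (by norm_num)
    (by rw [one_ap]; norm_num)
  obtain ⟨φ, h3, h4⟩ := interp ψ 1 (s := 1 / 2) (t := 7 / 8) (by norm_num)
    (by rw [h2, one_ap]; norm_num)
  have hφ : Sup φ := by
    intro x hx
    rcases hx with hx | hx
    · rw [h3 x (by linarith), h1 x (by linarith), one_ap]
    · rw [h4 x (by linarith), one_ap]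
  obtain ⟨g, hg⟩ := Pat.exists hφ alt
  obtain ⟨h5, h6⟩ := alt_std hφ hg (x0 := 1 / 2) (by norm_num) (by norm_num)
    (by rw [h3 _ le_rfl, h2]; norm_num)
  exact ⟨g, alt_rev hφ hg, h5, h6⟩

theorem Std.inv {A : DiffeoPlus} (h : Std A) : Std A⁻¹ := by
  refine ⟨?_, ?_, ?_, ?_⟩
  · intro x
    rw [inv_eq_iff, h.per, ap_inv]
  · intro x
    have := h.bd (A⁻¹ x)
    rw [ap_inv, abs_sub_comm] at this
    exact this
  · obtain ⟨x, hx⟩ := h.dn
    exact ⟨A x, by simpa using hx⟩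
  · obtain ⟨x, hx⟩ := h.up
    exact ⟨A x, by simpa using hx⟩

theorem Std.J {A : DiffeoPlus} (h : Std A) : Std (J A) := by
  refine ⟨?_, ?_, ?_, ?_⟩
  · intro x
    rw [J_ap, J_ap]
    have := h.per (-(x + 2))
    have e : -(x + 2) + 2 = -x := by ring
    rw [e] at this; rw [this]; ring
  · intro x
    rw [J_ap]
    have := h.bd (-x)
    have e : -A (-x) - x = -(A (-x) - -x) := by ring
    rw [e, abs_neg]; exact this
  · obtain ⟨x, hx⟩ := h.dn
    exact ⟨-x, by rw [J_ap, neg_neg]; linarith⟩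
  · obtain ⟨x, hx⟩ := h.up
    exact ⟨-x, by rw [J_ap, neg_neg]; linarith⟩

theorem Std.perN {A : DiffeoPlus} (h : Std A) (n : ℕ) (x : ℝ) : A (x + 2 * n) = A x + 2 * n := by
  induction n with
  | zero => simp
  | succ n ih =>
    have : x + 2 * ((n + 1 : ℕ) : ℝ) = (x + 2 * n) + 2 := by push_cast; ring
    rw [this, h.per, ih]; push_cast; ring

/-- negative points arbitrarily far to the right -/
theorem Std.dnR {A : DiffeoPlus} (h : Std A) (M : ℝ) : ∃ x, M < x ∧ A x < x := by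
  obtain ⟨x, hx⟩ := h.dn
  obtain ⟨n, hn⟩ := exists_nat_gt (M - x)
  refine ⟨x + 2 * n, ?_, ?_⟩
  · have : (0 : ℝ) ≤ n := Nat.cast_nonneg n
    linarith
  · rw [h.perN]; linarith

end Q33.Dif
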